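import Pool.Agent.Y444.UN.Defs

open MeasureTheory Set Filter Cardinal Topology ProbabilityTheory
open scoped ENNReal

namespace Pool.Agent.Y444.UN

theorem cdf_continuous (ρ : Measure ℝ) [IsProbabilityMeasure ρ] (h : ∀ x, ρ {x} = 0) :
    Continuous (cdf ρ) := by
  rw [continuous_iff_continuousAt]
  intro x
  have h1 : (cdf ρ).measure {x} = 0 := by rw [measure_cdf]; exact h x
  rw [StieltjesFunction.measure_singleton, ENNReal.ofReal_eq_zero] at h1
  have h2 : Function.leftLim (cdf ρ) x = cdf ρ x :=
    le_antisymm ((monotone_cdf ρ).leftLim_le le_rfl) (by linarith)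
  rw [(monotone_cdf ρ).continuousAt_iff_leftLim_eq_rightLim, h2, (cdf ρ).rightLim_eq]

theorem image_null (ρ : Measure ℝ) [IsProbabilityMeasure ρ] (Y : Set ℝ) (hY : ρ Y = 0) :
    volume (cdf ρ '' Y) = 0 := by
  set F := cdf ρ with hF
  have h1 : OuterMeasure.comap F volume.toOuterMeasure ≤ F.outer := by
    unfold StieltjesFunction.outer
    rw [OuterMeasure.le_ofFunction]
    intro s
    rw [OuterMeasure.comap_apply, StieltjesFunction.length_eq]
    refine le_iInf fun a => le_iInf fun b => le_iInf fun hs => ?_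
    have hs' : s ⊆ Ioc a b := by
      intro x hx
      refine hs ⟨hx, ?_⟩
      simp [botSet]
    have : F '' s ⊆ Icc (F a) (F b) := by
      rintro _ ⟨x, hx, rfl⟩
      exact ⟨F.mono (hs' hx).1.le, F.mono (hs' hx).2⟩
    calc volume.toOuterMeasure (F '' s) ≤ volume (Icc (F a) (F b)) := measure_mono this
      _ = ENNReal.ofReal (F b - F a) := Real.volume_Icc
  have h2 : F.outer Y = ρ Y := by
    conv_rhs => rw [← measure_cdf ρ]
    rw [StieltjesFunction.measure]
    rfl
  have h3 := h1 Y
  rw [OuterMeasure.comap_apply, h2, hY] at h3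
  exact le_antisymm h3 bot_le

theorem map_cdf (ρ : Measure ℝ) [IsProbabilityMeasure ρ] (h : ∀ x, ρ {x} = 0) :
    ρ.map (cdf ρ) = volume.restrict (Icc 0 1) := by
  have hmeas : Measurable (cdf ρ) := (monotone_cdf ρ).measurable
  have hcont := cdf_continuous ρ h
  have : IsProbabilityMeasure (ρ.map (cdf ρ)) := Measure.isProbabilityMeasure_map hmeas.aemeasurable
  refine Measure.ext_of_Iic _ _ fun a => ?_
  rw [Measure.map_apply hmeas measurableSet_Iic, Measure.restrict_apply measurableSet_Iic]
  rcases lt_or_ge a 0 with ha | ha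
  · have e1 : cdf ρ ⁻¹' Iic a = ∅ := by
      ext x
      simp only [mem_preimage, mem_Iic, mem_empty_iff_false, iff_false, not_le]
      exact lt_of_lt_of_le ha (cdf_nonneg ρ x)
    have e2 : Iic a ∩ Icc (0 : ℝ) 1 = ∅ := by
      ext x
      simp only [mem_inter_iff, mem_Iic, mem_Icc, mem_empty_iff_false, iff_false]
      intro hx; linarith [hx.1, hx.2.1]
    rw [e1, e2]; simp
  rcases le_or_gt 1 a with ha1 | ha1
  · have e1 : cdf ρ ⁻¹' Iic a = Set.univ := by
      ext x
      simp only [mem_preimage, mem_Iic, mem_univ, iff_true]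
      exact (cdf_le_one ρ x).trans ha1
    have e2 : Iic a ∩ Icc (0 : ℝ) 1 = Icc 0 1 := by
      ext x
      simp only [mem_inter_iff, mem_Iic, mem_Icc]
      constructor
      · exact fun hx => hx.2
      · exact fun hx => ⟨hx.2.trans ha1, hx⟩
    rw [e1, e2]; simp
  · have e2 : Iic a ∩ Icc (0 : ℝ) 1 = Icc 0 a := by
      ext x
      simp only [mem_inter_iff, mem_Iic, mem_Icc]
      constructor
      · exact fun hx => ⟨hx.2.1, hx.1⟩
      · exact fun hx => ⟨hx.2, hx.1, hx.2.trans ha1.le⟩
    rw [e2, Real.volume_Icc, sub_zero]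
    set S : Set ℝ := cdf ρ ⁻¹' Iic a with hS
    have hScl : IsClosed S := isClosed_Iic.preimage hcont
    obtain ⟨B, hB⟩ := ((tendsto_cdf_atTop ρ).eventually (lt_mem_nhds ha1)).exists
    have hSb : BddAbove S := by
      refine ⟨B, fun x hx => ?_⟩
      by_contra hxB
      have h1 : cdf ρ B ≤ cdf ρ x := monotone_cdf ρ (not_le.1 hxB).le
      have h2 : cdf ρ x ≤ a := hx
      linarith
    rcases S.eq_empty_or_nonempty with hSe | hSne
    · have ha0 : a = 0 := by
        by_contra hne
        have hpos : 0 < a := lt_of_le_of_ne ha (Ne.symm hne)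
        obtain ⟨x, hx⟩ := ((tendsto_cdf_atBot ρ).eventually (gt_mem_nhds hpos)).exists
        have : x ∈ S := hx.le
        rw [hSe] at this
        exact this
      rw [hSe, ha0]; simp
    · set t := sSup S with ht
      have htS : t ∈ S := hScl.csSup_mem hSne hSb
      have hSI : S = Iic t := by
        ext x
        constructor
        · exact fun hx => le_csSup hSb hx
        · intro hx
          exact (monotone_cdf ρ hx).trans htS
      have hta : cdf ρ t = a := by
        refine le_antisymm htS ?_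
        by_contra hlt
        rw [not_le] at hlt
        have hev : ∀ᶠ x in 𝓝[>] t, cdf ρ x < a :=
          (hcont.tendsto t).mono_left nhdsWithin_le_nhds |>.eventually (gt_mem_nhds hlt)
        obtain ⟨x, hx1, hx2⟩ := (hev.and self_mem_nhdsWithin).exists
        have : x ≤ t := le_csSup hSb hx1.le
        exact absurd hx2 (not_lt.2 this)
      rw [hSI, ← ofReal_cdf, hta]

theorem cdfStm : CdfStm := by
  intro ρ h1 h2
  have hcont := cdf_continuous ρ h2
  have hmeas : Measurable (cdf ρ) := (monotone_cdf ρ).measurable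
  refine ⟨cdf ρ, hmeas, ?_, fun Y hY => image_null ρ Y hY, fun Y hY => ?_⟩
  · intro c hc
    obtain ⟨a, ha⟩ := ((tendsto_cdf_atBot ρ).eventually (gt_mem_nhds hc.1)).exists
    obtain ⟨b, hb⟩ := ((tendsto_cdf_atTop ρ).eventually (lt_mem_nhds hc.2)).exists
    exact mem_range_of_exists_le_of_exists_ge hcont ⟨a, ha.le⟩ ⟨b, hb.le⟩
  · have h3 : (ρ.map (cdf ρ)) Y = 0 := by
      rw [map_cdf ρ h2]
      exact le_antisymm ((Measure.restrict_apply_le _ _).trans hY.le) bot_le
    exact le_antisymm ((Measure.le_map_apply hmeas.aemeasurable _).trans h3.le) bot_le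

end Pool.Agent.Y444.UN
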