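import Pool.Agent.Y444.UN.Defs

open MeasureTheory Set Filter Cardinal Topology
open scoped ENNReal

namespace Pool.Agent.Y444.UN

instance coin_prob : IsProbabilityMeasure coin := by
  constructor
  unfold coin
  simp only [Measure.smul_apply, Measure.add_apply, measure_univ, smul_eq_mul]
  rw [one_add_one_eq_two]
  exact ENNReal.inv_mul_cancel (by norm_num) (by norm_num)

theorem coin_map_not : coin.map (fun b => !b) = coin := by
  unfold coin
  have hm : Measurable (fun b : Bool => !b) := measurable_from_top
  have h1 : (Measure.dirac false).map (fun b : Bool => !b) = Measure.dirac true :=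
    Measure.map_dirac' hm false
  have h2 : (Measure.dirac true).map (fun b : Bool => !b) = Measure.dirac false :=
    Measure.map_dirac' hm true
  rw [Measure.map_smul, Measure.map_add _ _ hm, h1, h2, add_comm]

instance P_prob : IsProbabilityMeasure P := by
  unfold P; infer_instance

theorem flip_pres (A : Finset Idx) : MeasurePreserving (flip A) P P := by
  have hm : Measurable (flip A) := by
    rw [measurable_pi_iff]
    intro k
    unfold flip
    by_cases hk : k ∈ A
    · simp only [hk, if_true]
      exact (measurable_from_top (f := fun b : Bool => !b)).comp (measurable_pi_apply k)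
    · simp only [hk, if_false]
      exact measurable_pi_apply k
  refine ⟨hm, ?_⟩
  let g : Idx → Bool → Bool := fun k b => if k ∈ A then !b else b
  have hg : ∀ k, Measurable (g k) := fun k => measurable_from_top
  have h := Measure.infinitePi_map_pi (μ := fun _ : Idx => coin) (f := g) hg
  have h1 : (fun (x : Idx → Bool) i => g i (x i)) = flip A := by
    funext x k; rfl
  have h2 : (fun i => (coin).map (g i)) = fun _ => coin := by
    funext k
    by_cases hk : k ∈ A
    · have : g k = fun b => !b := by funext b; simp [g, hk]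
      rw [this, coin_map_not]
    · have : g k = id := by funext b; simp [g, hk]
      rw [this, Measure.map_id]
  unfold P
  rw [← h1, h]
  congr 1

theorem flip_single_apply (k : Idx) (x : Om) (l : Idx) :
    flip {k} x l = if l = k then !(x l) else x l := by
  unfold flip; simp

theorem one_coord {A : Set Om} (hA : MeasurableSet A) (k : Idx)
    (hinv : ∀ x y : Om, (∀ l, l ≠ k → x l = y l) → x ∈ A → y ∈ A) (b : Bool) :
    P (A ∩ {x | x k = b}) = (2 : ℝ≥0∞)⁻¹ * P A := by
  have hmk : ∀ b : Bool, MeasurableSet {x : Om | x k = b} := fun b =>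
    (measurable_pi_apply (X := fun _ : Idx => Bool) k) (measurableSet_singleton b)
  have hflip : ∀ c : Bool, P (A ∩ {x | x k = c}) = P (A ∩ {x | x k = !c}) := by
    intro c
    have h := (flip_pres {k}).measure_preimage (hA.inter (hmk c)).nullMeasurableSet
    rw [← h]
    congr 1
    ext x
    simp only [mem_preimage, mem_inter_iff, mem_setOf_eq, flip_single_apply, if_true]
    have hx : flip {k} x ∈ A ↔ x ∈ A := by
      constructor
      · exact hinv _ _ (fun l hl => by rw [flip_single_apply, if_neg hl])
      · exact hinv _ _ (fun l hl => by rw [flip_single_apply, if_neg hl])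
    rw [hx]
    constructor
    · rintro ⟨h1, h2⟩; exact ⟨h1, by rw [← h2]; simp⟩
    · rintro ⟨h1, h2⟩; exact ⟨h1, by rw [h2]; simp⟩
  have hsum : P A = P (A ∩ {x | x k = b}) + P (A ∩ {x | x k = !b}) := by
    rw [← measure_inter_add_diff A (hmk b)]
    congr 2
    ext x
    simp only [mem_diff, mem_inter_iff, mem_setOf_eq]
    constructor
    · rintro ⟨h1, h2⟩; exact ⟨h1, by cases hb : x k <;> cases b <;> simp_all⟩
    · rintro ⟨h1, h2⟩; exact ⟨h1, by rw [h2]; cases b <;> simp⟩
  rw [hflip b, ← two_mul] at hsum
  rw [hflip b, hsum, ← mul_assoc, ENNReal.inv_mul_cancel (by norm_num) (by norm_num), one_mul]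

theorem ind_main (A : Set Om) (H : Finset Idx) (s : Idx → Bool) (hA : MeasurableSet A)
    (hinv : ∀ x y : Om, (∀ k, k ∉ H → x k = y k) → x ∈ A → y ∈ A) :
    P (A ∩ {x | ∀ k ∈ H, x k = s k}) = (2 : ℝ≥0∞)⁻¹ ^ H.card * P A := by
  classical
  induction H using Finset.induction_on generalizing A with
  | empty => simp
  | insert k H hk ih =>
    have hset : A ∩ {x : Om | ∀ l ∈ insert k H, x l = s l} =
        (A ∩ {x | x k = s k}) ∩ {x | ∀ l ∈ H, x l = s l} := by
      ext x
      simp only [Finset.mem_insert, mem_inter_iff, mem_setOf_eq, forall_eq_or_imp]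
      tauto
    have hmk : MeasurableSet {x : Om | x k = s k} :=
      (measurable_pi_apply (X := fun _ : Idx => Bool) k) (measurableSet_singleton _)
    rw [hset, ih (A ∩ {x | x k = s k}) (hA.inter hmk)]
    · rw [one_coord hA k, Finset.card_insert_of_notMem hk, pow_succ, mul_assoc]
      intro x y hxy
      apply hinv x y
      intro l hl
      exact hxy l (fun h => hl (by rw [h]; exact Finset.mem_insert_self _ _))
    · rintro x y hxy ⟨h1, h2⟩
      refine ⟨hinv x y (fun l hl => hxy l fun h => hl (Finset.mem_insert_of_mem h)) h1, ?_⟩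
      rw [mem_setOf_eq, ← hxy k hk]; exact h2

theorem P_singleton (x : Om) : P {x} = 0 := by
  have h : ∀ n : ℕ, P {x} ≤ (2 : ℝ≥0∞)⁻¹ ^ n := by
    intro n
    obtain ⟨H, hH⟩ := Infinite.exists_subset_card_eq Idx n
    have h1 := ind_main Set.univ H x MeasurableSet.univ (fun _ _ _ _ => mem_univ _)
    rw [measure_univ, mul_one, hH, univ_inter] at h1
    rw [← h1]
    refine measure_mono ?_
    rintro y rfl k _
    rfl
  have ht : Tendsto (fun n : ℕ => (2 : ℝ≥0∞)⁻¹ ^ n) atTop (𝓝 0) :=
    ENNReal.tendsto_pow_atTop_nhds_zero_of_lt_one (by simp)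
  exact le_antisymm (ge_of_tendsto' ht h) bot_le

theorem ind : IndStm := ⟨P_prob, P_singleton, flip_pres, ind_main⟩

end Pool.Agent.Y444.UN
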