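import Pool.Agent.Y444.UN.Defs

open MeasureTheory Set Filter Cardinal Topology
open scoped ENNReal

namespace Pool.Agent.Y444.UN

theorem inj : InjStm := by
  intro α β _ _ _ _ g X hg hinj hun μ h1 h2
  have hprob : IsProbabilityMeasure (μ.map g) := Measure.isProbabilityMeasure_map hg.aemeasurable
  set ν := μ.map g with hν
  set A : Set β := {y | 0 < ν {y}} with hA
  have hAc : A.Countable := by
    have := Measure.countable_meas_pos_of_disjoint_iUnion (μ := ν) (As := fun y : β => ({y} : Set β))
      (fun y => measurableSet_singleton y)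
      (fun y y' h => by
        show Disjoint ({y} : Set β) {y'}
        rwa [disjoint_singleton])
    exact this
  have hAm : MeasurableSet A := hAc.measurableSet
  have key : ν (g '' X ∩ Aᶜ) = 0 := by
    rw [← Measure.restrict_apply' hAm.compl]
    by_cases h0 : ν.restrict Aᶜ = 0
    · rw [h0]; simp
    · have hne : (ν.restrict Aᶜ) Set.univ ≠ 0 := fun h => h0 (Measure.measure_univ_eq_zero.1 h)
      set c : ℝ≥0∞ := ((ν.restrict Aᶜ) Set.univ)⁻¹ with hc
      have hfin : (ν.restrict Aᶜ) Set.univ ≠ ∞ := measure_ne_top _ _
      have hp : IsProbabilityMeasure (c • ν.restrict Aᶜ) := by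
        constructor
        rw [Measure.smul_apply, smul_eq_mul, hc, ENNReal.inv_mul_cancel hne hfin]
      have hat : ∀ y, (c • ν.restrict Aᶜ) {y} = 0 := by
        intro y
        rw [Measure.smul_apply, smul_eq_mul, Measure.restrict_apply (measurableSet_singleton y)]
        by_cases hy : y ∈ A
        · have : ({y} : Set β) ∩ Aᶜ = ∅ := by
            ext w; simp only [mem_inter_iff, mem_singleton_iff, mem_compl_iff, mem_empty_iff_false,
              iff_false, not_and, not_not]
            rintro rfl; exact hy
          rw [this]; simp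
        · have : ν {y} = 0 := by
            rw [hA] at hy
            exact not_not.1 (fun h => hy (pos_iff_ne_zero.2 h))
          rw [measure_mono_null inter_subset_left this, mul_zero]
      have := hun _ hp hat
      rw [Measure.smul_apply, smul_eq_mul] at this
      rcases mul_eq_zero.1 this with h | h
      · rw [hc, ENNReal.inv_eq_zero] at h
        exact absurd h hfin
      · exact h
  have hpre : μ (g ⁻¹' (g '' X ∩ Aᶜ)) = 0 :=
    le_antisymm ((Measure.le_map_apply hg.aemeasurable _).trans key.le) bot_le
  have hcount : (X ∩ g ⁻¹' A).Countable := by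
    refine Set.countable_of_injective_of_countable_image (hinj.mono inter_subset_left) ?_
    exact hAc.mono (by rintro _ ⟨x, hx, rfl⟩; exact hx.2)
  have hcz : μ (X ∩ g ⁻¹' A) = 0 := by
    rw [← biUnion_of_singleton (X ∩ g ⁻¹' A)]
    exact (measure_biUnion_null_iff hcount).2 fun x _ => h2 x
  refine measure_mono_null (t := g ⁻¹' (g '' X ∩ Aᶜ) ∪ (X ∩ g ⁻¹' A)) ?_
    (measure_union_null hpre hcz)
  intro x hx
  by_cases h : g x ∈ A
  · exact Or.inr ⟨hx, h⟩
  · exact Or.inl ⟨mem_image_of_mem g hx, h⟩

end Pool.Agent.Y444.UN
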