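import Pool.Agent.Y444.UN.Defs

open MeasureTheory Set Filter Cardinal Topology
open scoped ENNReal

namespace Pool.Agent.Y444.UN

theorem exists_unit {Y : Set ℝ} (hY : ¬ IsNull Y) : ∃ n : ℤ, volume (Y ∩ Icc (n : ℝ) (n + 1)) ≠ 0 := by
  by_contra hcon
  push Not at hcon
  apply hY
  have : Y ⊆ ⋃ n : ℤ, Y ∩ Icc (n : ℝ) (n + 1) := by
    intro x hx
    exact mem_iUnion.2 ⟨⌊x⌋, hx, Int.floor_le x, (Int.lt_floor_add_one x).le⟩
  exact measure_mono_null this (measure_iUnion_null hcon)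

theorem not_isUN_of {Y : Set ℝ} (hY : ¬ IsNull Y) : ¬ IsUN Y := by
  intro h
  obtain ⟨n, hn⟩ := exists_unit hY
  have h1 : IsProbabilityMeasure (volume.restrict (Icc (n : ℝ) (n + 1))) := by
    constructor
    rw [Measure.restrict_apply MeasurableSet.univ, univ_inter, Real.volume_Icc]
    simp
  have h2 : ∀ x, (volume.restrict (Icc (n : ℝ) (n + 1))) {x} = 0 := by
    intro x
    rw [Measure.restrict_apply (measurableSet_singleton x)]
    exact measure_mono_null inter_subset_left Real.volume_singleton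
  have h3 := h _ h1 h2
  rw [Measure.restrict_apply' measurableSet_Icc] at h3
  exact hn h3

theorem not_isNull_univ : ¬ IsNull (Set.univ : Set ℝ) := by
  intro h
  unfold IsNull at h
  simp at h

theorem sUnion_singletons : ⋃₀ (range fun x : ℝ => ({x} : Set ℝ)) = Set.univ := by
  ext x; simp

theorem isUN_singleton (x : ℝ) : IsUN {x} := fun _ _ h => h x

theorem nonempty_add {I : Set ℝ → Prop} (h1 : ∀ x, I {x}) (h2 : ¬ I Set.univ) :
    {c | ∃ F : Set (Set ℝ), (∀ X ∈ F, I X) ∧ ¬ I (⋃₀ F) ∧ #F = c}.Nonempty := by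
  refine ⟨_, (range fun x : ℝ => ({x} : Set ℝ)), ?_, ?_, rfl⟩
  · rintro X ⟨x, rfl⟩
    exact h1 x
  · rw [sUnion_singletons]; exact h2

theorem addle (hC : CdfStm) : AddLeStm ∧ NonEqStm := by
  constructor
  · obtain ⟨F, hF, hFu, hFc⟩ := csInf_mem
      (nonempty_add isUN_singleton (not_isUN_of not_isNull_univ))
    change #F = addOf IsUN at hFc
    unfold AddLeStm
    rw [← hFc]
    have hex : ∃ ρ : Measure ℝ, IsProbabilityMeasure ρ ∧ (∀ x, ρ {x} = 0) ∧ ρ (⋃₀ F) ≠ 0 := by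
      by_contra hcon
      push Not at hcon
      exact hFu fun μ h1 h2 => hcon μ h1 h2
    obtain ⟨ρ, h1, h2, h3⟩ := hex
    obtain ⟨Φ, hΦ, -, ha, hb⟩ := hC ρ h1 h2
    have : addOf IsNull ≤ #((fun X : Set ℝ => Φ '' X) '' F) := by
      refine csInf_le' ⟨_, ?_, ?_, rfl⟩
      · rintro Y ⟨X, hX, rfl⟩
        exact ha X (hF X hX ρ h1 h2)
      · intro hn
        apply h3
        refine measure_mono_null ?_ (hb _ hn)
        rintro x ⟨X, hX, hx⟩
        exact ⟨Φ '' X, ⟨X, hX, rfl⟩, mem_image_of_mem Φ hx⟩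
    exact this.trans mk_image_le
  · unfold NonEqStm
    apply le_antisymm
    · obtain ⟨Y, hY, hYc⟩ := csInf_mem (s := {c | ∃ X : Set ℝ, ¬ IsNull X ∧ #X = c})
        ⟨_, Set.univ, not_isNull_univ, rfl⟩
      change #Y = nonOf IsNull at hYc
      rw [← hYc]
      exact csInf_le' ⟨Y, not_isUN_of hY, rfl⟩
    · obtain ⟨Y, hY, hYc⟩ := csInf_mem (s := {c | ∃ X : Set ℝ, ¬ IsUN X ∧ #X = c})
        ⟨_, Set.univ, not_isUN_of not_isNull_univ, rfl⟩
      change #Y = nonOf IsUN at hYc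
      rw [← hYc]
      have hex : ∃ ρ : Measure ℝ, IsProbabilityMeasure ρ ∧ (∀ x, ρ {x} = 0) ∧ ρ Y ≠ 0 := by
        by_contra hcon
        push Not at hcon
        exact hY fun μ h1 h2 => hcon μ h1 h2
      obtain ⟨ρ, h1, h2, h3⟩ := hex
      obtain ⟨Φ, hΦ, -, ha, hb⟩ := hC ρ h1 h2
      have : nonOf IsNull ≤ #(Φ '' Y) := by
        refine csInf_le' ⟨_, ?_, rfl⟩
        intro hn
        apply h3
        refine measure_mono_null ?_ (hb _ hn)
        exact subset_preimage_image Φ Y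
      exact this.trans mk_image_le

end Pool.Agent.Y444.UN
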