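import Pool.Agent.Y444.UN.Main
import Pool.Agent.Y444.UN.AddLe

open MeasureTheory Set Filter Cardinal Topology
open scoped ENNReal

namespace Pool.Agent.Y444.UN

/-- the measurable equivalence -/
noncomputable def eqv : Om ≃ᵐ ℝ :=
  PolishSpace.measurableEquivOfNotCountable (not_countable_fun Idx)
    (by rw [← not_uncountable_iff, not_not]; infer_instance)

theorem closed_avoid (hI : IndStm) {B : Set Om} (hB : P B = 0) :
    ∃ K : Set Om, IsClosed K ∧ P K ≠ 0 ∧ Disjoint K B := by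
  have : IsProbabilityMeasure P := hI.1
  obtain ⟨N, hBN, hN, hN0⟩ := exists_measurable_superset_of_null hB
  have hc : P Nᶜ ≠ 0 := by
    rw [prob_compl_eq_one_sub hN, hN0]
    simp
  obtain ⟨K, hKN, hK, hK0⟩ := hN.compl.exists_lt_isClosed_of_ne_top (μ := P) (measure_ne_top P _)
    (pos_iff_ne_zero.2 hc)
  refine ⟨K, hK, hK0.ne', ?_⟩
  rw [Set.disjoint_left]
  intro x hx hxB
  exact hKN hx (hBN hxB)

theorem cofStm (hI : IndStm) (hC : CdfStm) : CofStm := by
  have : IsProbabilityMeasure P := hI.1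
  obtain ⟨Φ, hΦ, -, ha, hb⟩ := hC (P.map eqv) (map_equiv_prob eqv P)
    (map_equiv_atomless eqv P hI.2.1)
  obtain ⟨F, hF, hFcof, hFc⟩ := csInf_mem (s := {c | ∃ F : Set (Set ℝ), (∀ X ∈ F, IsNull X) ∧
    (∀ Y, IsNull Y → ∃ X ∈ F, Y ⊆ X) ∧ #F = c})
    ⟨_, {X | IsNull X}, fun _ h => h, fun Y hY => ⟨Y, hY, Subset.rfl⟩, rfl⟩
  change #F = cofOf IsNull at hFc
  have h1 : ∀ M : F, ∃ K : Set Om, IsClosed K ∧ P K ≠ 0 ∧ Disjoint K (eqv ⁻¹' (Φ ⁻¹' M)) := by
    intro M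
    apply closed_avoid hI
    have := hb M (hF M M.2)
    rwa [eqv.map_apply] at this
  choose K hK1 hK2 hK3 using h1
  refine ⟨range K, ?_, ?_, ?_⟩
  · rw [← hFc]; exact mk_range_le
  · rintro _ ⟨M, rfl⟩
    exact ⟨hK1 M, hK2 M⟩
  · intro X hX
    have h2 : (P.map eqv) (eqv '' X) = 0 := by
      rw [eqv.map_apply, preimage_image_eq _ eqv.injective]; exact hX
    obtain ⟨M, hM, hsub⟩ := hFcof _ (ha _ h2)
    refine ⟨K ⟨M, hM⟩, ⟨_, rfl⟩, ?_⟩
    refine (hK3 ⟨M, hM⟩).mono_right ?_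
    intro x hx
    exact hsub (mem_image_of_mem Φ (mem_image_of_mem eqv hx))

theorem nonOm (hI : IndStm) (hC : CdfStm) : NonOmStm := by
  have : IsProbabilityMeasure P := hI.1
  obtain ⟨Φ, hΦ, hr, ha, hb⟩ := hC (P.map eqv) (map_equiv_prob eqv P)
    (map_equiv_atomless eqv P hI.2.1)
  obtain ⟨Y, hY, hYc⟩ := csInf_mem (s := {c | ∃ X : Set ℝ, ¬ IsNull X ∧ #X = c})
    ⟨_, Set.univ, not_isNull_univ, rfl⟩
  change #Y = nonOf IsNull at hYc
  obtain ⟨n, hn⟩ := exists_unit hY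
  -- translate into the open unit interval
  set Y' : Set ℝ := ((fun x : ℝ => x - n) '' (Y ∩ Icc (n : ℝ) (n + 1))) ∩ Ioo 0 1 with hY'
  have hY'0 : volume Y' ≠ 0 := by
    intro h0
    have h1 : volume (((fun x : ℝ => x - n) '' (Y ∩ Icc (n : ℝ) (n + 1)))) = 0 := by
      have h2 : ((fun x : ℝ => x - n) '' (Y ∩ Icc (n : ℝ) (n + 1))) ⊆ Y' ∪ {0, 1} := by
        rintro _ ⟨x, ⟨hxY, hx⟩, rfl⟩
        by_cases h : x - n ∈ Ioo (0 : ℝ) 1
        · exact Or.inl ⟨⟨x, ⟨hxY, hx⟩, rfl⟩, h⟩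
        · right
          simp only [mem_Ioo, not_and_or, not_lt, mem_insert_iff, mem_singleton_iff] at h ⊢
          rcases h with h | h
          · left; linarith [hx.1]
          · right; linarith [hx.2]
      refine measure_mono_null h2 (measure_union_null h0 ?_)
      exact (Set.toFinite ({0, 1} : Set ℝ)).measure_zero _
    apply hn
    have h3 : (fun x : ℝ => x - n) = (fun x : ℝ => x + (-n)) := by funext x; ring
    rw [h3, image_add_right, neg_neg, measure_preimage_add_right] at h1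
    exact h1
  have hsub : Y' ⊆ range Φ := fun y hy => hr hy.2
  have hch : ∀ y : Y', ∃ w : Om, Φ (eqv w) = y := by
    intro y
    obtain ⟨x, hx⟩ := hsub y.2
    exact ⟨eqv.symm x, by rw [eqv.apply_symm_apply, hx]⟩
  choose w hw using hch
  have hwi : Function.Injective w := by
    intro y y' h
    apply Subtype.ext
    rw [← hw y, ← hw y', h]
  have hE0 : P (range w) ≠ 0 := by
    intro h0
    have h2 : (P.map eqv) (eqv '' range w) = 0 := by
      rw [eqv.map_apply, preimage_image_eq _ eqv.injective]; exact h0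
    apply hY'0
    refine measure_mono_null ?_ (ha _ h2)
    intro y hy
    exact ⟨eqv (w ⟨y, hy⟩), mem_image_of_mem _ ⟨_, rfl⟩, hw ⟨y, hy⟩⟩
  refine ⟨range w, hE0, ?_⟩
  rw [mk_range_eq w hwi]
  apply le_antisymm
  · calc #Y' ≤ #((fun x : ℝ => x - n) '' (Y ∩ Icc (n : ℝ) (n + 1))) :=
          mk_le_mk_of_subset inter_subset_left
      _ ≤ #(Y ∩ Icc (n : ℝ) (n + 1) : Set ℝ) := mk_image_le
      _ ≤ #Y := mk_le_mk_of_subset inter_subset_left
      _ = _ := hYc
  · exact csInf_le' ⟨Y', hY'0, rfl⟩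

end Pool.Agent.Y444.UN
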