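import Pool.Agent.Y444.UN.Defs

open MeasureTheory Set Filter Cardinal Topology
open scoped ENNReal

namespace Pool.Agent.Y444.UN

def cyl (F : Finset Idx) (s : Om) : Set Om := {x | ∀ k ∈ F, x k = s k}

def blk (n i : ℕ) : Finset Idx := (Finset.range (2 * n)).image (fun j => (n, i, j))

def pat (z : ℕ → Bool) : Om := fun k => if k.2.2 < k.1 then false else z (k.2.2 - k.1)

theorem mem_blk {n i : ℕ} {k : Idx} : k ∈ blk n i ↔ k.1 = n ∧ k.2.1 = i ∧ k.2.2 < 2 * n := by
  unfold blk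
  rw [Finset.mem_image]
  constructor
  · rintro ⟨j, hj, rfl⟩
    exact ⟨rfl, rfl, Finset.mem_range.1 hj⟩
  · rintro ⟨h1, h2, h3⟩
    refine ⟨k.2.2, Finset.mem_range.2 h3, ?_⟩
    rw [← h1, ← h2]

theorem card_blk (n i : ℕ) : (blk n i).card = 2 * n := by
  unfold blk
  rw [Finset.card_image_of_injective, Finset.card_range]
  intro a b h
  simpa using h

theorem isClopen_cyl (F : Finset Idx) (s : Om) : IsClopen (cyl F s) := by
  have : cyl F s = ⋂ k ∈ F, (fun x : Om => x k) ⁻¹' {s k} := by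
    ext x; simp [cyl]
  rw [this]
  exact isClopen_biInter_finset fun k _ => (isClopen_discrete _).preimage (continuous_apply k)

theorem meas_cyl (F : Finset Idx) (s : Om) : MeasurableSet (cyl F s) :=
  (isClopen_cyl F s).isOpen.measurableSet

/-- `A` does not depend on the coordinates in `H` -/
def Indep (A : Set Om) (H : Finset Idx) : Prop :=
  ∀ x y : Om, (∀ k, k ∉ H → x k = y k) → x ∈ A → y ∈ A

theorem indep_cyl {F H : Finset Idx} (h : Disjoint F H) (s : Om) : Indep (cyl F s) H := by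
  intro x y hxy hx k hk
  rw [← hxy k (Finset.disjoint_left.1 h hk)]
  exact hx k hk

theorem indep_compl {A : Set Om} {H : Finset Idx} (h : Indep A H) : Indep Aᶜ H := by
  intro x y hxy hx hy
  exact hx (h y x (fun k hk => (hxy k hk).symm) hy)

theorem indep_inter {A B : Set Om} {H : Finset Idx} (h : Indep A H) (h' : Indep B H) :
    Indep (A ∩ B) H := fun x y hxy hx => ⟨h x y hxy hx.1, h' x y hxy hx.2⟩

theorem indep_union {A B : Set Om} {H : Finset Idx} (h : Indep A H) (h' : Indep B H) :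
    Indep (A ∪ B) H := by
  rintro x y hxy (hx | hx)
  · exact Or.inl (h x y hxy hx)
  · exact Or.inr (h' x y hxy hx)

theorem indep_iUnion {ι : Sort*} {A : ι → Set Om} {H : Finset Idx} (h : ∀ i, Indep (A i) H) :
    Indep (⋃ i, A i) H := by
  intro x y hxy hx
  obtain ⟨i, hi⟩ := mem_iUnion.1 hx
  exact mem_iUnion.2 ⟨i, h i x y hxy hi⟩

/-- the good event -/
def Cg (z : ℕ → Bool) (n i : ℕ) : Set Om := cyl (blk n i) (pat z)

theorem mem_Cg {z : ℕ → Bool} {f : ℕ → ℕ} {n : ℕ} {x : Om} :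
    x ∈ Cg z n (f n) ↔ Spec f n x ∧ Code f z n x := by
  constructor
  · intro h
    refine ⟨fun j hj => ?_, fun j hj => ?_⟩
    · have := h (n, f n, j) (mem_blk.2 ⟨rfl, rfl, by show j < 2 * n; omega⟩)
      rw [this]
      show (if j < n then false else z (j - n)) = false
      rw [if_pos hj]
    · have := h (n, f n, n + j) (mem_blk.2 ⟨rfl, rfl, by show n + j < 2 * n; omega⟩)
      rw [this]
      show (if n + j < n then false else z (n + j - n)) = z j
      rw [if_neg (by omega), Nat.add_sub_cancel_left]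
  · rintro ⟨h1, h2⟩ k hk
    obtain ⟨rfl, hk2, hk3⟩ := mem_blk.1 hk
    obtain ⟨n, i, j⟩ := k
    simp only at hk2 hk3 h1 h2 ⊢
    subst hk2
    show x (n, f n, j) = if j < n then false else z (j - n)
    by_cases hj : j < n
    · rw [if_pos hj]; exact h1 j hj
    · rw [if_neg hj]
      have := h2 (j - n) (by omega)
      rwa [Nat.add_sub_cancel' (by omega)] at this

theorem two_pow (n : ℕ) : (2 : ℝ≥0∞)⁻¹ ^ (2 * n) = (4 : ℝ≥0∞)⁻¹ ^ n := by
  rw [pow_mul]
  congr 1
  rw [← ENNReal.inv_pow]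
  norm_num

variable (hI : IndStm)
include hI

theorem prob_inter_Cg {A : Set Om} (hA : MeasurableSet A) (z : ℕ → Bool) (n i : ℕ)
    (h : Indep A (blk n i)) : P (A ∩ Cg z n i) = (4 : ℝ≥0∞)⁻¹ ^ n * P A := by
  have := hI.2.2.2 A (blk n i) (pat z) hA h
  rw [card_blk, two_pow] at this
  exact this

/-- counting the bad places -/
theorem count_bad {A K : Set Om} (hA : MeasurableSet A) (hK : MeasurableSet K) (z : ℕ → Bool)
    (n : ℕ) (hind : ∀ i, Indep A (blk n i)) (T : Finset ℕ)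
    (hT : ∀ i ∈ T, (4 : ℝ≥0∞)⁻¹ ^ n * P A ≤ 2 * P ((A \ K) ∩ Cg z n i)) :
    (T.card : ℝ≥0∞) * ((4 : ℝ≥0∞)⁻¹ ^ n * P A) ≤
      2 * P ((A \ K) ∩ ⋃ i ∈ T, Cg z n i) + (T.card : ℝ≥0∞) ^ 2 *
        ((4 : ℝ≥0∞)⁻¹ ^ n * ((4 : ℝ≥0∞)⁻¹ ^ n * P A)) := by
  classical
  induction T using Finset.induction_on with
  | empty => simp
  | insert i T hi ih =>
    have ih' := ih (fun j hj => hT j (Finset.mem_insert_of_mem hj))
    have hTi := hT i (Finset.mem_insert_self i T)
    set p : ℝ≥0∞ := (4 : ℝ≥0∞)⁻¹ ^ n with hp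
    set a : ℝ≥0∞ := P A with ha
    set V : Set Om := ⋃ j ∈ T, Cg z n j with hV
    set C : Set Om := Cg z n i with hC
    have hVm : MeasurableSet V :=
      Finset.measurableSet_biUnion _ fun j _ => meas_cyl _ _
    have hCm : MeasurableSet C := meas_cyl _ _
    have hUm : MeasurableSet (A \ K) := hA.diff hK
    have hunion : (⋃ j ∈ insert i T, Cg z n j) = C ∪ V := by
      simp [hV, hC]
    -- V does not depend on block i
    have hVind : Indep (A ∩ V) (blk n i) := by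
      refine indep_inter (hind i) ?_
      refine indep_iUnion fun j => indep_iUnion fun hj => ?_
      refine indep_cyl ?_ _
      rw [Finset.disjoint_left]
      intro k hk hk'
      obtain ⟨-, h2, -⟩ := mem_blk.1 hk
      obtain ⟨-, h2', -⟩ := mem_blk.1 hk'
      apply hi
      rw [← h2', h2]
      exact hj
    have hAV : P (A ∩ V) ≤ (T.card : ℝ≥0∞) * (p * a) := by
      have h1 : A ∩ V = ⋃ j ∈ T, A ∩ Cg z n j := by
        rw [hV, inter_iUnion₂]
      rw [h1]
      refine (measure_biUnion_finset_le T _).trans ?_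
      rw [Finset.sum_congr rfl fun j _ => prob_inter_Cg hI hA z n j (hind j)]
      simp [hp, ha]
    have hAVC : P (A ∩ V ∩ C) = p * P (A ∩ V) := prob_inter_Cg hI (hA.inter hVm) z n i hVind
    have h2 : P ((A \ K) ∩ C) ≤ P (((A \ K) ∩ (C ∪ V)) \ V) + P (A ∩ V ∩ C) := by
      refine (measure_mono ?_).trans (measure_union_le _ _)
      intro x hx
      by_cases hxV : x ∈ V
      · exact Or.inr ⟨⟨hx.1.1, hxV⟩, hx.2⟩
      · exact Or.inl ⟨⟨hx.1, Or.inl hx.2⟩, hxV⟩
    have h3 : P ((A \ K) ∩ (C ∪ V)) =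
        P (((A \ K) ∩ (C ∪ V)) ∩ V) + P (((A \ K) ∩ (C ∪ V)) \ V) :=
      (measure_inter_add_diff _ hVm).symm
    have h4 : ((A \ K) ∩ (C ∪ V)) ∩ V = (A \ K) ∩ V := by
      ext x
      constructor
      · rintro ⟨⟨h, -⟩, h'⟩; exact ⟨h, h'⟩
      · rintro ⟨h, h'⟩; exact ⟨⟨h, Or.inr h'⟩, h'⟩
    rw [h4] at h3
    rw [hunion, Finset.card_insert_of_notMem hi]
    set c : ℝ≥0∞ := (T.card : ℝ≥0∞) with hc
    set u := P ((A \ K) ∩ V)
    set w := P (((A \ K) ∩ (C ∪ V)) \ V)
    rw [h3]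
    push_cast
    have hstep : p * a ≤ 2 * w + 2 * (p * (c * (p * a))) := by
      calc p * a ≤ 2 * P ((A \ K) ∩ C) := hTi
        _ ≤ 2 * (w + P (A ∩ V ∩ C)) := by gcongr
        _ = 2 * w + 2 * (p * P (A ∩ V)) := by rw [hAVC]; ring
        _ ≤ 2 * w + 2 * (p * (c * (p * a))) := by gcongr
    calc (c + 1) * (p * a) = c * (p * a) + p * a := by ring
      _ ≤ (2 * u + c ^ 2 * (p * (p * a))) + (2 * w + 2 * (p * (c * (p * a)))) := by
          gcongr
      _ = 2 * (u + w) + (c ^ 2 + 2 * c) * (p * (p * a)) := by ring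
      _ ≤ 2 * (u + w) + (c + 1) ^ 2 * (p * (p * a)) := by
          gcongr
          calc c ^ 2 + 2 * c ≤ c ^ 2 + 2 * c + 1 := le_self_add
            _ = (c + 1) ^ 2 := by ring

end Pool.Agent.Y444.UN
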