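import Pool.Agent.Y444.UN.Core

open MeasureTheory Set Filter Cardinal Topology
open scoped ENNReal

namespace Pool.Agent.Y444.UN

theorem num1 : (2 : ℝ≥0∞) * (4 : ℝ≥0∞)⁻¹ = (2 : ℝ≥0∞)⁻¹ := by
  rw [← ENNReal.toReal_eq_toReal_iff' (by finiteness) (by finiteness)]
  rw [ENNReal.toReal_mul, ENNReal.toReal_inv, ENNReal.toReal_inv]
  norm_num

theorem num2 (m : ℕ) : ((2 * 4 ^ m : ℕ) : ℝ≥0∞) * (4 : ℝ≥0∞)⁻¹ ^ (m + 1) = (2 : ℝ≥0∞)⁻¹ := by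
  push_cast
  have : (4 : ℝ≥0∞) ^ m * (4 : ℝ≥0∞)⁻¹ ^ m = 1 := by
    rw [← mul_pow, ENNReal.mul_inv_cancel (by norm_num) (by norm_num), one_pow]
  calc (2 : ℝ≥0∞) * 4 ^ m * (4 : ℝ≥0∞)⁻¹ ^ (m + 1)
      = (4 ^ m * (4 : ℝ≥0∞)⁻¹ ^ m) * (2 * (4 : ℝ≥0∞)⁻¹) := by rw [pow_succ]; ring
    _ = (2 : ℝ≥0∞)⁻¹ := by rw [this, one_mul, num1]

/-- bad places of a cylinder -/
def Bad (K : Set Om) (z : ℕ → Bool) (A : Set Om) (n : ℕ) : Set ℕ :=
  {i | (4 : ℝ≥0∞)⁻¹ ^ n * P A ≤ 2 * P ((A \ K) ∩ Cg z n i)}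

theorem bad_card (hI : IndStm) {A K : Set Om} (hA : MeasurableSet A) (hK : MeasurableSet K)
    (z : ℕ → Bool) (n : ℕ) (hn : 1 ≤ n) (hind : ∀ i, Indep A (blk n i)) (hA0 : P A ≠ 0)
    (hAK : P (A \ K) ≤ (16 : ℝ≥0∞)⁻¹ * P A) (T : Finset ℕ) (hT : ↑T ⊆ Bad K z A n) :
    T.card ≤ 4 ^ n := by
  by_contra hcon
  push Not at hcon
  haveI : IsProbabilityMeasure P := hI.1
  obtain ⟨m, rfl⟩ : ∃ m, n = m + 1 := ⟨n - 1, by omega⟩
  have hN : 2 * 4 ^ m ≤ T.card := by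
    have : 4 ^ (m + 1) = 4 * 4 ^ m := by rw [pow_succ]; ring
    omega
  obtain ⟨S, hST, hS⟩ := Finset.exists_subset_card_eq hN
  have h := count_bad hI hA hK z (m + 1) hind S (fun i hi => hT (hST hi))
  rw [hS] at h
  set p : ℝ≥0∞ := (4 : ℝ≥0∞)⁻¹ ^ (m + 1) with hp
  set a : ℝ≥0∞ := P A with ha
  have hnp : ((2 * 4 ^ m : ℕ) : ℝ≥0∞) * p = (2 : ℝ≥0∞)⁻¹ := num2 m
  have h1 : ((2 * 4 ^ m : ℕ) : ℝ≥0∞) * (p * a) = (2 : ℝ≥0∞)⁻¹ * a := by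
    rw [← mul_assoc, hnp]
  have h2 : ((2 * 4 ^ m : ℕ) : ℝ≥0∞) ^ 2 * (p * (p * a)) = (2 : ℝ≥0∞)⁻¹ * ((2 : ℝ≥0∞)⁻¹ * a) := by
    calc ((2 * 4 ^ m : ℕ) : ℝ≥0∞) ^ 2 * (p * (p * a))
        = (((2 * 4 ^ m : ℕ) : ℝ≥0∞) * p) * ((((2 * 4 ^ m : ℕ) : ℝ≥0∞) * p) * a) := by ring
      _ = _ := by rw [hnp]
  rw [h1, h2] at h
  have h3 : P ((A \ K) ∩ ⋃ i ∈ S, Cg z (m + 1) i) ≤ (16 : ℝ≥0∞)⁻¹ * a :=
    (measure_mono inter_subset_left).trans hAK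
  have h4 : (2 : ℝ≥0∞)⁻¹ * a ≤ 2 * ((16 : ℝ≥0∞)⁻¹ * a) + (2 : ℝ≥0∞)⁻¹ * ((2 : ℝ≥0∞)⁻¹ * a) :=
    h.trans (by gcongr)
  have hafin : a ≠ ∞ := measure_ne_top P A
  have hapos : 0 < a.toReal := ENNReal.toReal_pos hA0 hafin
  have h5 := (ENNReal.toReal_le_toReal (by finiteness) (by finiteness)).2 h4
  rw [ENNReal.toReal_add (by finiteness) (by finiteness)] at h5
  simp only [ENNReal.toReal_mul, ENNReal.toReal_inv, ENNReal.toReal_ofNat] at h5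
  linarith

theorem bad_finite (hI : IndStm) {A K : Set Om} (hA : MeasurableSet A) (hK : MeasurableSet K)
    (z : ℕ → Bool) (n : ℕ) (hn : 1 ≤ n) (hind : ∀ i, Indep A (blk n i)) (hA0 : P A ≠ 0)
    (hAK : P (A \ K) ≤ (16 : ℝ≥0∞)⁻¹ * P A) : (Bad K z A n).Finite := by
  by_contra hcon
  obtain ⟨T, hT, hc⟩ := (show (Bad K z A n).Infinite from hcon).exists_subset_card_eq (4 ^ n + 1)
  have := bad_card hI hA hK z n hn hind hA0 hAK T hT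
  omega

/-- bad events -/
def Bb (f : ℕ → ℕ) (z : ℕ → Bool) (n : ℕ) : Set Om := {x | Spec f n x ∧ ¬ Code f z n x}

theorem isClopen_Spec (f : ℕ → ℕ) (n : ℕ) : IsClopen {x : Om | Spec f n x} := by
  have : {x : Om | Spec f n x} = ⋂ j ∈ Finset.range n, (fun x : Om => x (n, f n, j)) ⁻¹' {false} := by
    ext x; simp [Spec]
  rw [this]
  exact isClopen_biInter_finset fun k _ => (isClopen_discrete _).preimage (continuous_apply _)

theorem isClopen_Code (f : ℕ → ℕ) (z : ℕ → Bool) (n : ℕ) : IsClopen {x : Om | Code f z n x} := by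
  have : {x : Om | Code f z n x} =
      ⋂ j ∈ Finset.range n, (fun x : Om => x (n, f n, n + j)) ⁻¹' {z j} := by
    ext x; simp [Code]
  rw [this]
  exact isClopen_biInter_finset fun k _ => (isClopen_discrete _).preimage (continuous_apply _)

theorem isClopen_Bb (f : ℕ → ℕ) (z : ℕ → Bool) (n : ℕ) : IsClopen (Bb f z n) :=
  (isClopen_Spec f n).inter (isClopen_Code f z n).compl

theorem indep_Bb (f : ℕ → ℕ) (z : ℕ → Bool) {n m : ℕ} (h : n ≠ m) (i : ℕ) :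
    Indep (Bb f z n) (blk m i) := by
  intro x y hxy hx
  have key : ∀ j, x (n, f n, j) = y (n, f n, j) := fun j =>
    hxy _ (fun hk => h (mem_blk.1 hk).1)
  refine ⟨fun j hj => by rw [← key]; exact hx.1 j hj, fun hc => hx.2 fun j hj => ?_⟩
  rw [key]; exact hc j hj

theorem prob_Spec (hI : IndStm) (f : ℕ → ℕ) (n : ℕ) :
    P {x : Om | Spec f n x} = (2 : ℝ≥0∞)⁻¹ ^ n := by
  classical
  haveI : IsProbabilityMeasure P := hI.1
  set H : Finset Idx := (Finset.range n).image (fun j => (n, f n, j)) with hH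
  have hc : H.card = n := by
    rw [hH, Finset.card_image_of_injective, Finset.card_range]
    intro a b h
    simpa using h
  have := hI.2.2.2 univ H (fun _ => false) MeasurableSet.univ (fun _ _ _ _ => mem_univ _)
  rw [measure_univ, mul_one, hc, univ_inter] at this
  rw [← this]
  congr 1
  ext x
  constructor
  · intro hx k hk
    obtain ⟨j, hj, rfl⟩ := Finset.mem_image.1 hk
    exact hx j (Finset.mem_range.1 hj)
  · intro hx j hj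
    exact hx _ (Finset.mem_image.2 ⟨j, Finset.mem_range.2 hj, rfl⟩)

theorem prob_Bb (hI : IndStm) (f : ℕ → ℕ) (z : ℕ → Bool) (n : ℕ) :
    P (Bb f z n) ≤ (2 : ℝ≥0∞)⁻¹ ^ n :=
  (measure_mono fun _ hx => hx.1).trans (prob_Spec hI f n).le

/-- the decisive step -/
theorem step (hI : IndStm) (hD : DensStm) {K : Set Om} (hK : IsClosed K) (z : ℕ → Bool)
    (f : ℕ → ℕ)
    (hf : ∀ (F : Finset Idx) (s : Om), P (cyl F s \ K) ≤ (16 : ℝ≥0∞)⁻¹ * P (cyl F s) →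
      P (cyl F s) ≠ 0 → ∃ᶠ n in atTop, f n ∉ Bad K z (cyl F s) n)
    {n₀ : ℕ} {L : Set Om} (hL : L = K \ ⋃ n, ⋃ (_ : n₀ ≤ n), Bb f z n)
    (F₀ : Finset Idx) (s₀ : Om) (hpos : P (L ∩ cyl F₀ s₀) ≠ 0) (m : ℕ) :
    ∃ n, m ≤ n ∧ P (L ∩ cyl F₀ s₀ ∩ Cg z n (f n)) ≠ 0 := by
  haveI : IsProbabilityMeasure P := hI.1
  have hLc : IsClosed L := by
    rw [hL]
    exact hK.sdiff (isOpen_iUnion fun n => isOpen_iUnion fun _ => (isClopen_Bb f z n).isOpen)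
  obtain ⟨F, s, h1, h2⟩ := hD (L ∩ cyl F₀ s₀) (hLc.inter (isClopen_cyl F₀ s₀).isClosed) hpos
  change P (cyl F s \ (L ∩ cyl F₀ s₀)) ≤ (16 : ℝ≥0∞)⁻¹ * P (cyl F s) at h1
  change P (L ∩ cyl F₀ s₀ ∩ cyl F s) ≠ 0 at h2
  set A : Set Om := cyl F s with hA
  have hAm : MeasurableSet A := meas_cyl F s
  have hA0 : P A ≠ 0 := fun h => h2 (measure_mono_null inter_subset_right h)
  have hAK : P (A \ K) ≤ (16 : ℝ≥0∞)⁻¹ * P A := by
    refine (measure_mono ?_).trans h1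
    intro x hx
    refine ⟨hx.1, fun h => hx.2 ?_⟩
    have := h.1
    rw [hL] at this
    exact this.1
  -- a bound for the first coordinates
  obtain ⟨b, hb⟩ : ∃ b, ∀ k ∈ F ∪ F₀, k.1 < b := by
    refine ⟨(F ∪ F₀).sup (fun k => k.1) + 1, fun k hk => ?_⟩
    exact Nat.lt_succ_of_le (Finset.le_sup (f := fun k : Idx => k.1) hk)
  obtain ⟨n, hn, hfn⟩ := (hf F s hAK hA0).forall_exists_of_atTop (max m (b + 1))
  refine ⟨n, (le_max_left _ _).trans hn, fun hzero => ?_⟩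
  have hbn : b < n := lt_of_lt_of_le (Nat.lt_succ_self b) ((le_max_right _ _).trans hn)
  have hdis : ∀ G : Finset Idx, (∀ k ∈ G, k.1 < b) → Disjoint G (blk n (f n)) := by
    intro G hG
    rw [Finset.disjoint_left]
    intro k hk hk'
    have := hG k hk
    rw [(mem_blk.1 hk').1] at this
    omega
  have hF : Indep A (blk n (f n)) :=
    indep_cyl (hdis F fun k hk => hb k (Finset.mem_union_left _ hk)) s
  have hF0 : Indep (cyl F₀ s₀) (blk n (f n)) :=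
    indep_cyl (hdis F₀ fun k hk => hb k (Finset.mem_union_right _ hk)) s₀
  set W : Set Om := ⋃ n', ⋃ (_ : n₀ ≤ n'), ⋃ (_ : n' ≠ n), Bb f z n' with hW
  set V : Set Om := A ∩ (W ∪ (cyl F₀ s₀)ᶜ) with hV
  have hWm : MeasurableSet W :=
    MeasurableSet.iUnion fun n' => MeasurableSet.iUnion fun _ => MeasurableSet.iUnion fun _ =>
      (isClopen_Bb f z n').isOpen.measurableSet
  have hVm : MeasurableSet V := hAm.inter (hWm.union (meas_cyl _ _).compl)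
  have hVi : Indep V (blk n (f n)) := by
    refine indep_inter hF (indep_union ?_ (indep_compl hF0))
    exact indep_iUnion fun n' => indep_iUnion fun _ => indep_iUnion fun h => indep_Bb f z h _
  have hVle : P V ≤ (16 : ℝ≥0∞)⁻¹ * P A := by
    refine (measure_mono ?_).trans h1
    rintro x ⟨hxA, hx⟩
    refine ⟨hxA, fun h => ?_⟩
    rcases hx with hx | hx
    · have h' := h.1
      rw [hL] at h'
      apply h'.2
      obtain ⟨n', hx⟩ := mem_iUnion.1 hx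
      obtain ⟨hn', hx⟩ := mem_iUnion.1 hx
      obtain ⟨-, hx⟩ := mem_iUnion.1 hx
      exact mem_iUnion.2 ⟨n', mem_iUnion.2 ⟨hn', hx⟩⟩
    · exact hx h.2
  have hcover : A ∩ Cg z n (f n) ⊆ (L ∩ cyl F₀ s₀ ∩ Cg z n (f n)) ∪
      (((A \ K) ∩ Cg z n (f n)) ∪ (V ∩ Cg z n (f n))) := by
    rintro x ⟨hxA, hxC⟩
    by_cases hxK : x ∈ K
    · by_cases hxF : x ∈ cyl F₀ s₀
      · by_cases hxL : x ∈ L
        · exact Or.inl ⟨⟨hxL, hxF⟩, hxC⟩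
        · right; right
          refine ⟨⟨hxA, Or.inl ?_⟩, hxC⟩
          rw [hL] at hxL
          have hxB : x ∈ ⋃ n, ⋃ (_ : n₀ ≤ n), Bb f z n := by
            by_contra h
            exact hxL ⟨hxK, h⟩
          obtain ⟨n', hx⟩ := mem_iUnion.1 hxB
          obtain ⟨hn', hx⟩ := mem_iUnion.1 hx
          refine mem_iUnion.2 ⟨n', mem_iUnion.2 ⟨hn', mem_iUnion.2 ⟨?_, hx⟩⟩⟩
          rintro rfl
          exact hx.2 (mem_Cg.1 hxC).2
      · exact Or.inr (Or.inr ⟨⟨hxA, Or.inr hxF⟩, hxC⟩)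
    · exact Or.inr (Or.inl ⟨⟨hxA, hxK⟩, hxC⟩)
  have hAC : P (A ∩ Cg z n (f n)) = (4 : ℝ≥0∞)⁻¹ ^ n * P A := prob_inter_Cg hI hAm z n (f n) hF
  have hVC : P (V ∩ Cg z n (f n)) = (4 : ℝ≥0∞)⁻¹ ^ n * P V := prob_inter_Cg hI hVm z n (f n) hVi
  have hKC : 2 * P ((A \ K) ∩ Cg z n (f n)) < (4 : ℝ≥0∞)⁻¹ ^ n * P A := not_le.1 hfn
  have hle : (4 : ℝ≥0∞)⁻¹ ^ n * P A ≤
      P ((A \ K) ∩ Cg z n (f n)) + (4 : ℝ≥0∞)⁻¹ ^ n * ((16 : ℝ≥0∞)⁻¹ * P A) := by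
    calc (4 : ℝ≥0∞)⁻¹ ^ n * P A = P (A ∩ Cg z n (f n)) := hAC.symm
      _ ≤ P (L ∩ cyl F₀ s₀ ∩ Cg z n (f n)) +
          (P ((A \ K) ∩ Cg z n (f n)) + P (V ∩ Cg z n (f n))) :=
          (measure_mono hcover).trans ((measure_union_le _ _).trans
            (add_le_add le_rfl (measure_union_le _ _)))
      _ = P ((A \ K) ∩ Cg z n (f n)) + (4 : ℝ≥0∞)⁻¹ ^ n * P V := by
          rw [hzero, zero_add, hVC]
      _ ≤ _ := by gcongr
  have hafin : P A ≠ ∞ := measure_ne_top P A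
  have hufin : P ((A \ K) ∩ Cg z n (f n)) ≠ ∞ := measure_ne_top P _
  have hpfin : (4 : ℝ≥0∞)⁻¹ ^ n ≠ ∞ := by finiteness
  have hp0 : (4 : ℝ≥0∞)⁻¹ ^ n ≠ 0 := pow_ne_zero _ (by simp)
  have hpa : 0 < ((4 : ℝ≥0∞)⁻¹ ^ n * P A).toReal :=
    ENNReal.toReal_pos (mul_ne_zero hp0 hA0) (by finiteness)
  have e1 := (ENNReal.toReal_lt_toReal (by finiteness) (by finiteness)).2 hKC
  have e2 := (ENNReal.toReal_le_toReal (by finiteness) (by finiteness)).2 hle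
  rw [ENNReal.toReal_add (by finiteness) (by finiteness)] at e2
  simp only [ENNReal.toReal_mul, ENNReal.toReal_inv, ENNReal.toReal_ofNat, ENNReal.toReal_pow]
    at e1 e2 hpa
  nlinarith

end Pool.Agent.Y444.UN
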