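import Pool.Agent.Y444.UN.Core2

open MeasureTheory Set Filter Cardinal Topology
open scoped ENNReal

namespace Pool.Agent.Y444.UN

theorem cyl_inter {F H : Finset Idx} {s t y : Om} (hy : y ∈ cyl F s ∩ cyl H t) :
    cyl F s ∩ cyl H t = cyl (F ∪ H) y := by
  ext x
  constructor
  · rintro ⟨h1, h2⟩ k hk
    rcases Finset.mem_union.1 hk with hk | hk
    · rw [h1 k hk, hy.1 k hk]
    · rw [h2 k hk, hy.2 k hk]
  · intro h
    refine ⟨fun k hk => ?_, fun k hk => ?_⟩
    · rw [h k (Finset.mem_union_left _ hk), hy.1 k hk]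
    · rw [h k (Finset.mem_union_right _ hk), hy.2 k hk]

theorem cyl_ind (F : Finset Idx) (s : Om) :
    cyl F s = cyl F (fun k => decide (k ∈ F.filter (fun k => s k = true))) := by
  ext x
  constructor
  · intro h k hk
    rw [h k hk]
    by_cases hs : s k = true
    · simp [hk, hs]
    · simp [hk, hs]
  · intro h k hk
    rw [h k hk]
    by_cases hs : s k = true
    · simp [hk, hs]
    · simp [hk, hs]

theorem find_point (hI : IndStm) (hD : DensStm) {K : Set Om} (hK : IsClosed K)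
    (hK0 : P K ≠ 0) (z : ℕ → Bool) (f : ℕ → ℕ)
    (hf : ∀ (F : Finset Idx) (s : Om), P (cyl F s \ K) ≤ (16 : ℝ≥0∞)⁻¹ * P (cyl F s) →
      P (cyl F s) ≠ 0 → ∃ᶠ n in atTop, f n ∉ Bad K z (cyl F s) n) :
    ∃ x ∈ K, Dec f x z := by
  have : IsProbabilityMeasure P := hI.1
  -- a tail of the bad events
  obtain ⟨n₀, hn₀⟩ : ∃ n₀, P (⋃ n, ⋃ (_ : n₀ ≤ n), Bb f z n) < P K := by
    have hsum : ∑' n, (2 : ℝ≥0∞)⁻¹ ^ n ≠ ∞ := by
      rw [ENNReal.tsum_geometric]
      simp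
    have ht := ENNReal.tendsto_sum_nat_add (fun n => (2 : ℝ≥0∞)⁻¹ ^ n) hsum
    have := (ht.eventually (gt_mem_nhds (pos_iff_ne_zero.2 hK0))).exists
    obtain ⟨n₀, hn₀⟩ := this
    refine ⟨n₀, lt_of_le_of_lt ?_ hn₀⟩
    have hU : (⋃ n, ⋃ (_ : n₀ ≤ n), Bb f z n) ⊆ ⋃ k, Bb f z (k + n₀) := by
      intro x hx
      obtain ⟨n, hx⟩ := mem_iUnion.1 hx
      obtain ⟨hn, hx⟩ := mem_iUnion.1 hx
      exact mem_iUnion.2 ⟨n - n₀, by rwa [Nat.sub_add_cancel hn]⟩
    calc P (⋃ n, ⋃ (_ : n₀ ≤ n), Bb f z n) ≤ P (⋃ k, Bb f z (k + n₀)) := measure_mono hU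
      _ ≤ ∑' k, P (Bb f z (k + n₀)) := measure_iUnion_le _
      _ ≤ ∑' k, (2 : ℝ≥0∞)⁻¹ ^ (k + n₀) := ENNReal.tsum_le_tsum fun k => prob_Bb hI f z _
  set W : Set Om := ⋃ n, ⋃ (_ : n₀ ≤ n), Bb f z n with hW
  set L : Set Om := K \ W with hL
  have hWo : IsOpen W :=
    isOpen_iUnion fun n => isOpen_iUnion fun _ => (isClopen_Bb f z n).isOpen
  have hLc : IsClosed L := hK.sdiff hWo
  have hL0 : P L ≠ 0 := by
    intro h
    have : P K ≤ P L + P W := by
      refine (measure_mono ?_).trans (measure_union_le _ _)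
      intro x hx
      by_cases hxW : x ∈ W
      · exact Or.inr hxW
      · exact Or.inl ⟨hx, hxW⟩
    rw [h, zero_add] at this
    exact absurd hn₀ (not_lt.2 this)
  -- states
  let St := {q : Finset Idx × Om // P (L ∩ cyl q.1 q.2) ≠ 0}
  have hstep : ∀ (q : St) (m : ℕ), ∃ q' : St, cyl q'.1.1 q'.1.2 ⊆ cyl q.1.1 q.1.2 ∧
      ∃ n, m ≤ n ∧ cyl q'.1.1 q'.1.2 ⊆ Cg z n (f n) := by
    rintro ⟨⟨F, s⟩, hq⟩ m
    obtain ⟨n, hn, hne⟩ := step hI hD hK z f hf hL F s hq m
    obtain ⟨y, hy⟩ := nonempty_of_measure_ne_zero hne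
    have hcyl : cyl F s ∩ Cg z n (f n) = cyl (F ∪ blk n (f n)) y :=
      cyl_inter ⟨hy.1.2, hy.2⟩
    refine ⟨⟨(F ∪ blk n (f n), y), ?_⟩, ?_, n, hn, ?_⟩
    · show P (L ∩ cyl (F ∪ blk n (f n)) y) ≠ 0
      rw [← hcyl, ← inter_assoc]
      exact hne
    · show cyl (F ∪ blk n (f n)) y ⊆ cyl F s
      rw [← hcyl]; exact inter_subset_left
    · show cyl (F ∪ blk n (f n)) y ⊆ Cg z n (f n)
      rw [← hcyl]; exact inter_subset_right
  choose nxt hn1 hn2 using hstep
  let q₀ : St := ⟨(∅, fun _ => false), by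
    have : cyl (∅ : Finset Idx) (fun _ => false) = Set.univ := by
      ext x; simp [cyl]
    show P (L ∩ cyl (∅ : Finset Idx) (fun _ => false)) ≠ 0
    rw [this, inter_univ]; exact hL0⟩
  let sq : ℕ → St := fun k => Nat.rec q₀ (fun k q => nxt q k) k
  have hsq : ∀ k, sq (k + 1) = nxt (sq k) k := fun k => rfl
  let D : ℕ → Set Om := fun k => L ∩ cyl (sq k).1.1 (sq k).1.2
  have hDanti : ∀ k, D (k + 1) ⊆ D k := by
    intro k x hx
    refine ⟨hx.1, ?_⟩
    have := hx.2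
    rw [hsq] at this
    exact hn1 _ _ this
  have hDne : ∀ k, (D k).Nonempty := fun k => nonempty_of_measure_ne_zero (sq k).2
  have hDcl : ∀ k, IsClosed (D k) := fun k => hLc.inter (isClopen_cyl _ _).isClosed
  obtain ⟨x, hx⟩ := IsCompact.nonempty_iInter_of_sequence_nonempty_isCompact_isClosed D hDanti
    hDne (hDcl 0).isCompact hDcl
  rw [mem_iInter] at hx
  have hxL : x ∈ L := (hx 0).1
  refine ⟨x, hxL.1, ?_, ?_⟩
  · rw [frequently_atTop]
    intro m
    have h1 := (hx (m + 1)).2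
    rw [hsq] at h1
    obtain ⟨n, hn, hsub⟩ := hn2 (sq m) m
    exact ⟨n, hn, (mem_Cg.1 (hsub h1)).1⟩
  · rw [eventually_atTop]
    refine ⟨n₀, fun n hn hs => ?_⟩
    by_contra hc
    apply hxL.2
    exact mem_iUnion.2 ⟨n, mem_iUnion.2 ⟨hn, hs, hc⟩⟩

theorem core (hI : IndStm) (hD : DensStm) : CoreStm := by
  classical
  intro K z hK hK0
  have : IsProbabilityMeasure P := hI.1
  -- slaloms indexed by cylinders
  let A : Finset Idx × Finset Idx → Set Om := fun c => cyl c.1 (fun k => decide (k ∈ c.2))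
  let T : Finset Idx × Finset Idx → ℕ → Finset ℕ := fun c n =>
    if h : ∃ S : Finset ℕ, (S : Set ℕ) = Bad K z (A c) n ∧ S.card ≤ 4 ^ n then h.choose else ∅
  have hTcard : ∀ c n, (T c n).card ≤ 4 ^ n := by
    intro c n
    show (dite _ _ _ : Finset ℕ).card ≤ _
    split_ifs with h
    · exact h.choose_spec.2
    · simp
  have hTmem : ∀ c n, (∃ S : Finset ℕ, (S : Set ℕ) = Bad K z (A c) n ∧ S.card ≤ 4 ^ n) →
      ((T c n : Finset ℕ) : Set ℕ) = Bad K z (A c) n := by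
    intro c n h
    show ((dite _ _ _ : Finset ℕ) : Set ℕ) = _
    rw [dif_pos h]
    exact h.choose_spec.1
  obtain ⟨e, he⟩ := exists_surjective_nat (Finset Idx × Finset Idx)
  refine ⟨fun j => T (e j), fun j n => hTcard _ _, fun f => ?_⟩
  by_contra hcon
  push Not at hcon
  obtain ⟨h1, h2⟩ := hcon
  obtain ⟨x, hxK, hx⟩ := find_point hI hD hK hK0 z f (fun F s hFs hFs0 => by
    by_contra hnf
    rw [not_frequently] at hnf
    obtain ⟨j, hj⟩ := he (F, F.filter (fun k => s k = true))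
    have hAj : A (e j) = cyl F s := by
      show cyl (e j).1 (fun k => decide (k ∈ (e j).2)) = cyl F s
      rw [hj]
      exact (cyl_ind F s).symm
    apply h1 j
    obtain ⟨b, hb⟩ : ∃ b, ∀ k ∈ F, k.1 < b := by
      refine ⟨F.sup (fun k => k.1) + 1, fun k hk => ?_⟩
      exact Nat.lt_succ_of_le (Finset.le_sup (f := fun k : Idx => k.1) hk)
    filter_upwards [hnf, eventually_ge_atTop (b + 1)] with n hn hbn
    rw [not_not] at hn
    have hind : ∀ i, Indep (cyl F s) (blk n i) := by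
      intro i
      refine indep_cyl ?_ s
      rw [Finset.disjoint_left]
      intro k hk hk'
      have := hb k hk
      rw [(mem_blk.1 hk').1] at this
      omega
    have hfin := bad_finite hI (meas_cyl F s) hK.measurableSet z n (by omega) hind hFs0 hFs
    have hex : ∃ S : Finset ℕ, (S : Set ℕ) = Bad K z (A (e j)) n ∧ S.card ≤ 4 ^ n := by
      refine ⟨hfin.toFinset, by rw [hAj]; exact hfin.coe_toFinset, ?_⟩
      exact bad_card hI (meas_cyl F s) hK.measurableSet z n (by omega) hind hFs0 hFs _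
        (by rw [hfin.coe_toFinset])
    have := hTmem (e j) n hex
    rw [hAj] at this
    have h3 : f n ∈ ((T (e j) n : Finset ℕ) : Set ℕ) := by rw [this]; exact hn
    exact not_not.2 h3)
  exact h2 x hxK hx

end Pool.Agent.Y444.UN
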