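import Mathlib

/-!
# Universally null sets: definitions and block statements (project UN, helper444)

Theorem (helper444, for MP_f79ffc_lc): if there is a universally null set of cardinality at least
`cof(N)` (for instance if `non(N) = cof(N)`, for instance if `c ≤ ℵ₂`), then
`add(UN) = add(N)`; and `add(UN) ≤ d` in ZFC.
-/

open MeasureTheory Set Filter Cardinal
open scoped ENNReal

namespace Pool.Agent.Y444.UN

/-- `X` is universally null: every atomless Borel probability measure gives `X` outer measure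
zero. -/
def UNull {α : Type*} [MeasurableSpace α] (X : Set α) : Prop :=
  ∀ μ : Measure α, IsProbabilityMeasure μ → (∀ x, μ {x} = 0) → μ X = 0

/-- Universally null sets of reals. -/
def IsUN (X : Set ℝ) : Prop :=
  ∀ μ : Measure ℝ, IsProbabilityMeasure μ → (∀ x, μ {x} = 0) → μ X = 0

/-- Lebesgue null sets of reals. -/
def IsNull (X : Set ℝ) : Prop := volume X = 0

/-- additivity of a class of sets of reals -/
noncomputable def addOf (I : Set ℝ → Prop) : Cardinal.{0} :=
  sInf {c | ∃ F : Set (Set ℝ), (∀ X ∈ F, I X) ∧ ¬ I (⋃₀ F) ∧ #F = c}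

/-- uniformity of a class of sets of reals -/
noncomputable def nonOf (I : Set ℝ → Prop) : Cardinal.{0} :=
  sInf {c | ∃ X : Set ℝ, ¬ I X ∧ #X = c}

/-- cofinality of a class of sets of reals -/
noncomputable def cofOf (I : Set ℝ → Prop) : Cardinal.{0} :=
  sInf {c | ∃ F : Set (Set ℝ), (∀ X ∈ F, I X) ∧ (∀ Y, I Y → ∃ X ∈ F, Y ⊆ X) ∧ #F = c}

/-- The dominating number. -/
noncomputable def dNum : Cardinal.{0} :=
  sInf {c | ∃ D : Set (ℕ → ℕ), (∀ g : ℕ → ℕ, ∃ f ∈ D, ∀ᶠ n in atTop, g n ≤ f n) ∧ #D = c}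

/-- Fair coin. -/
noncomputable def coin : Measure Bool :=
  (2 : ℝ≥0∞)⁻¹ • (Measure.dirac false + Measure.dirac true)

/-- The index set of coordinates: `(n, i, j)` is the `j`-th bit of the block `(n, i)`. -/
abbrev Idx : Type := ℕ × ℕ × ℕ

/-- The probability space: fair coins indexed by `Idx`. -/
abbrev Om : Type := Idx → Bool

/-- product measure -/
noncomputable def P : Measure Om := Measure.infinitePi (fun _ : Idx => coin)

/-- flip the coordinates in `A` -/
def flip (A : Finset Idx) (x : Om) : Om := fun k => if k ∈ A then !(x k) else x k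

/-- The block `(n, f n)` of `x` is *special*: its first `n` bits vanish. -/
def Spec (f : ℕ → ℕ) (n : ℕ) (x : Om) : Prop := ∀ j < n, x (n, f n, j) = false

/-- The block `(n, f n)` of `x` codes the first `n` bits of `z` in its places `n, ..., 2n-1`. -/
def Code (f : ℕ → ℕ) (z : ℕ → Bool) (n : ℕ) (x : Om) : Prop :=
  ∀ j < n, x (n, f n, n + j) = z j

/-- `f` decodes `z` from `x`: infinitely many blocks `(n, f n)` of `x` are special, and almost
all of the special ones code `z`. -/
def Dec (f : ℕ → ℕ) (x : Om) (z : ℕ → Bool) : Prop :=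
  (∃ᶠ n in atTop, Spec f n x) ∧ ∀ᶠ n in atTop, Spec f n x → Code f z n x

/-- write `z` into `e` at the places `(n, f n, 0)` -/
def comb (f : ℕ → ℕ) (e : Om) (z : ℕ → Bool) : Om :=
  fun k => if k.2.1 = f k.1 ∧ k.2.2 = 0 then z k.1 else e k

/-! ## Blocks -/

/-- Block CODES: null sets are coded by functions. -/
def CodesStm : Prop :=
  ∀ (ρ : Measure ℝ) [ρ.OuterRegular] (ε : ℕ → ℝ≥0∞), (∀ n, ε n ≠ 0) →
    ∃ G : ℕ → ℕ → Set ℝ, (∀ n i, MeasurableSet (G n i)) ∧ (∀ n i, ρ (G n i) ≤ ε n) ∧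
      ∀ N : Set ℝ, ρ N = 0 → ∃ f : ℕ → ℕ, N ⊆ {y | ∃ᶠ n in atTop, y ∈ G n (f n)}

/-- Block INJ: preimages of universally null sets under injective Borel functions. -/
def InjStm : Prop :=
  ∀ (α β : Type) [MeasurableSpace α] [MeasurableSpace β] [MeasurableSingletonClass α]
    [MeasurableSingletonClass β]
    (g : α → β) (X : Set α), Measurable g → InjOn g X → UNull (g '' X) → UNull X

/-- Block CDF: every atomless probability measure on the line is equivalent to a restriction of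
Lebesgue measure, also for null sets that are not measurable. -/
def CdfStm : Prop :=
  ∀ ρ : Measure ℝ, IsProbabilityMeasure ρ → (∀ x, ρ {x} = 0) →
    ∃ F : ℝ → ℝ, Measurable F ∧ Ioo 0 1 ⊆ range F ∧
      (∀ Y : Set ℝ, ρ Y = 0 → volume (F '' Y) = 0) ∧
      (∀ Y : Set ℝ, volume Y = 0 → ρ (F ⁻¹' Y) = 0)

/-- Block GRZ (Grzegorek): there is a universally null set of size `non(UN)`. -/
def GrzStm : Prop := ∃ Z : Set ℝ, IsUN Z ∧ #Z = nonOf IsUN

/-- Block ADDLE: `add(N) ≤ add(UN)`. -/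
def AddLeStm : Prop := addOf IsNull ≤ addOf IsUN

/-- Block NONEQ: `non(UN) = non(N)`. -/
def NonEqStm : Prop := nonOf IsUN = nonOf IsNull

/-- Block COF: few closed sets of positive measure avoid all null sets of `Om`. -/
def CofStm : Prop :=
  ∃ 𝕂 : Set (Set Om), #𝕂 ≤ cofOf IsNull ∧ (∀ K ∈ 𝕂, IsClosed K ∧ P K ≠ 0) ∧
    ∀ X : Set Om, P X = 0 → ∃ K ∈ 𝕂, Disjoint K X

/-- Block NONOM: there is a set of size `non(N)` in `Om` which is not null. -/
def NonOmStm : Prop := ∃ E : Set Om, P E ≠ 0 ∧ #E = nonOf IsNull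

/-- Block IND: fair coins at finitely many places are independent of a set that does not depend
on these places; flips preserve the measure; points are null. -/
def IndStm : Prop :=
  IsProbabilityMeasure P ∧ (∀ x : Om, P {x} = 0) ∧
  (∀ A : Finset Idx, MeasurePreserving (flip A) P P) ∧
  ∀ (A : Set Om) (H : Finset Idx) (s : Idx → Bool), MeasurableSet A →
    (∀ x y : Om, (∀ k, k ∉ H → x k = y k) → x ∈ A → y ∈ A) →
    P (A ∩ {x | ∀ k ∈ H, x k = s k}) = (2 : ℝ≥0∞)⁻¹ ^ H.card * P A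

/-- Block DENS: Lebesgue density for closed sets and cylinders. -/
def DensStm : Prop :=
  ∀ (L : Set Om), IsClosed L → P L ≠ 0 → ∃ (F : Finset Idx) (s : Om),
    P ({x | ∀ k ∈ F, x k = s k} \ L) ≤ (16 : ℝ≥0∞)⁻¹ * P {x | ∀ k ∈ F, x k = s k} ∧
      P (L ∩ {x | ∀ k ∈ F, x k = s k}) ≠ 0

/-- Block CORE: for a closed set `K` of positive measure and `z` there are countably many
slaloms such that every function `f` which is captured by none of them decodes `z` from a point
of `K`. -/
def CoreStm : Prop :=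
  ∀ (K : Set Om) (z : ℕ → Bool), IsClosed K → P K ≠ 0 →
    ∃ T : ℕ → ℕ → Finset ℕ, (∀ j n, (T j n).card ≤ 4 ^ n) ∧
      ∀ f : ℕ → ℕ, (∃ j, ∀ᶠ n in atTop, f n ∈ T j n) ∨ ∃ x ∈ K, Dec f x z

/-- Block ROB: robust points of closed sets of positive measure. -/
def RobStm : Prop :=
  ∀ (K : Set Om), IsClosed K → P K ≠ 0 → ∃ φ : ℕ → ℕ, ∀ f : ℕ → ℕ, (∀ n, φ n ≤ f n) →
    ∃ R : Set Om, MeasurableSet R ∧ P R ≠ 0 ∧ ∀ e ∈ R, ∀ z : ℕ → Bool, comb f e z ∈ K

/-- Block HIT: finite changes of a set which is not null meet every set of positive measure. -/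
def HitStm : Prop :=
  ∀ (E R : Set Om), P E ≠ 0 → MeasurableSet R → P R ≠ 0 →
    ∃ A : Finset Idx, ∃ e ∈ E, flip A e ∈ R

/-- Block MAIN -/
def MainStm : Prop :=
  ∀ Z : Set ℝ, IsUN Z → cofOf IsNull ≤ #Z → addOf IsUN ≤ addOf IsNull

/-- Block DOM -/
def DomStm : Prop := addOf IsUN ≤ dNum

end Pool.Agent.Y444.UN
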