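import Pool.Agent.Y444.UN.Defs

/-!
# The bound of `add(UN)` by the bounding number (helper444)
-/

open MeasureTheory Set Filter Cardinal
open scoped ENNReal

namespace Pool.Agent.Y444.UN

/-- The bounding number. -/
noncomputable def bNum : Cardinal.{0} :=
  sInf {c | ∃ B : Set (ℕ → ℕ), (∀ g : ℕ → ℕ, ∃ f ∈ B, ∃ᶠ n in atTop, g n < f n) ∧ #B = c}

/-- write `s` into `e` in the blocks `(n, f n)`, `n ∈ A`, at the places `j < 2 n` -/
noncomputable def wr (f : ℕ → ℕ) (A : Set ℕ) (e s : Om) : Om :=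
  open Classical in
  fun k => if k.1 ∈ A ∧ k.2.1 = f k.1 ∧ k.2.2 < 2 * k.1 then s k else e k

/-- the special blocks which code `z` -/
def pat (z : ℕ → Bool) : Om := fun k => if k.2.2 < k.1 then false else z (k.2.2 - k.1)

/-- Block ROB2: robust points of closed sets of positive measure, for blocks. -/
def Rob2Stm : Prop :=
  ∀ (K : Set Om), IsClosed K → P K ≠ 0 → ∃ φ : ℕ → ℕ, ∀ (f : ℕ → ℕ) (A : Set ℕ),
    (∀ n ∈ A, φ n ≤ f n) →
    ∃ R : Set Om, MeasurableSet R ∧ P R ≠ 0 ∧ ∀ e ∈ R, ∀ s : Om, wr f A e s ∈ K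

/-- Block NSP: almost surely only finitely many of the blocks `(n, f n)` are special. -/
def NspStm : Prop :=
  ∀ f : ℕ → ℕ, MeasurableSet {x | ∃ᶠ n in atTop, Spec f n x} ∧
    P {x | ∃ᶠ n in atTop, Spec f n x} = 0

/-- Block BDD: if there is a universally null set of size at least `𝔡`, then `add(UN) ≤ 𝔟`. -/
def BddStm : Prop := ∀ Z : Set ℝ, IsUN Z → dNum ≤ #Z → addOf IsUN ≤ bNum

end Pool.Agent.Y444.UN
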