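import Pool.Agent.Y444.UN.Core3
import Pool.Agent.Y444.UN.Ind

open MeasureTheory Set Filter Cardinal Topology
open scoped ENNReal

namespace Pool.Agent.Y444.UN

/-- an open superset of a closed set `L` of `Om` contains all cylinders of the points of `L` for
some finite set of coordinates -/
theorem exists_finset_cyl {L U : Set Om} (hL : IsClosed L) (hU : IsOpen U) (hLU : L ⊆ U) :
    ∃ F : Finset Idx, ∀ y ∈ L, cyl F y ⊆ U := by
  classical
  have h1 : ∀ x : Om, x ∈ L → ∃ F : Finset Idx, cyl F x ⊆ U := by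
    intro x hx
    obtain ⟨I, u, hu, hsub⟩ := isOpen_pi_iff.1 hU x (hLU hx)
    refine ⟨I, fun y hy => hsub ?_⟩
    intro k hk
    rw [hy k hk]
    exact (hu k hk).2
  choose! Fx hFx using h1
  obtain ⟨t, htL, ht⟩ := hL.isCompact.elim_nhds_subcover (fun x => cyl (Fx x) x)
    (fun x _ => (isClopen_cyl _ _).isOpen.mem_nhds (fun k _ => rfl))
  refine ⟨t.biUnion Fx, fun y hy w hw => ?_⟩
  obtain ⟨x, hx, hyx⟩ := mem_iUnion₂.1 (ht hy)
  refine hFx x (htL x hx) ?_
  intro k hk
  rw [hw k (Finset.mem_biUnion.2 ⟨x, hx, hk⟩), hyx k hk]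

theorem dens : DensStm := by
  classical
  intro L hL hL0
  have hLm : MeasurableSet L := hL.measurableSet
  obtain ⟨U, hLU, hU, -, hUL⟩ := hLm.exists_isOpen_sdiff_lt (μ := P) (measure_ne_top P L)
    (show (16 : ℝ≥0∞)⁻¹ * P L ≠ 0 from mul_ne_zero (by simp) hL0)
  obtain ⟨F, hF⟩ := exists_finset_cyl hL hU hLU
  let hat : (F → Bool) → Om := fun s k => if h : k ∈ F then s ⟨k, h⟩ else false
  have hpart : ∀ B : Set Om, MeasurableSet B → ∑ s : F → Bool, P (B ∩ cyl F (hat s)) = P B := by
    intro B hB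
    have h1 : B = ⋃ s : F → Bool, B ∩ cyl F (hat s) := by
      ext x
      simp only [mem_iUnion, mem_inter_iff]
      constructor
      · intro hx
        refine ⟨fun k => x k, hx, fun k hk => ?_⟩
        simp [hat, hk]
      · rintro ⟨s, hs, -⟩; exact hs
    conv_rhs => rw [h1]
    rw [measure_iUnion, tsum_fintype]
    · intro s s' hss
      rw [Function.onFun, Set.disjoint_left]
      rintro x ⟨-, hx⟩ ⟨-, hx'⟩
      apply hss
      funext k
      have e1 := hx k k.2
      have e2 := hx' k k.2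
      simp only [hat, k.2, dif_pos] at e1 e2
      rw [← e1, ← e2]
    · exact fun s => hB.inter (meas_cyl _ _)
  by_contra hcon
  push Not at hcon
  have hall : ∀ s : F → Bool, (16 : ℝ≥0∞)⁻¹ * P (L ∩ cyl F (hat s)) ≤
      P ((U \ L) ∩ cyl F (hat s)) := by
    intro s
    by_cases h0 : P (L ∩ cyl F (hat s)) = 0
    · rw [h0, mul_zero]; exact bot_le
    · obtain ⟨y, hyL, hyC⟩ := nonempty_of_measure_ne_zero h0
      have hCU : cyl F (hat s) ⊆ U := by
        have : cyl F (hat s) = cyl F y := by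
          ext x
          constructor
          · intro hx k hk; rw [hx k hk, hyC k hk]
          · intro hx k hk; rw [hx k hk, hyC k hk]
        rw [this]; exact hF y hyL
      have h2 : (16 : ℝ≥0∞)⁻¹ * P (cyl F (hat s)) < P (cyl F (hat s) \ L) := by
        by_contra h3
        exact h0 (hcon F (hat s) (not_lt.1 h3))
      calc (16 : ℝ≥0∞)⁻¹ * P (L ∩ cyl F (hat s)) ≤ (16 : ℝ≥0∞)⁻¹ * P (cyl F (hat s)) := by
            gcongr; exact inter_subset_right
        _ ≤ P (cyl F (hat s) \ L) := h2.le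
        _ ≤ P ((U \ L) ∩ cyl F (hat s)) := by
            apply measure_mono
            intro x hx
            exact ⟨⟨hCU hx.1, hx.2⟩, hx.1⟩
  have h4 : (16 : ℝ≥0∞)⁻¹ * P L ≤ P (U \ L) := by
    rw [← hpart L hLm, ← hpart (U \ L) (hU.measurableSet.diff hLm), Finset.mul_sum]
    exact Finset.sum_le_sum fun s _ => hall s
  exact absurd hUL (not_lt.2 h4)

end Pool.Agent.Y444.UN
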