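import Pool.Agent.Y444.UN.Cof
import Pool.Agent.Y444.UN.Cdf
import Pool.Agent.Y444.UN.Inj
import Pool.Agent.Y444.UN.Dens

open MeasureTheory Set Filter Cardinal Topology
open scoped ENNReal

namespace Pool.Agent.Y444.UN

theorem mainStm (hC : CodesStm) : MainStm :=
  main hC inj ind (core ind dens) (cofStm ind cdfStm)

theorem add_eq_of_large (hC : CodesStm) (Z : Set ℝ) (hZ : IsUN Z) (h : cofOf IsNull ≤ #Z) :
    addOf IsUN = addOf IsNull :=
  le_antisymm (mainStm hC Z hZ h) (addle cdfStm).1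

theorem add_eq_of_non (hC : CodesStm) (hG : GrzStm) (h : cofOf IsNull ≤ nonOf IsNull) :
    addOf IsUN = addOf IsNull := by
  obtain ⟨Z, hZ, hZc⟩ := hG
  refine add_eq_of_large hC Z hZ ?_
  rw [hZc, (addle cdfStm).2]
  exact h

theorem cof_le_continuum : cofOf IsNull ≤ 𝔠 := by
  have h : cofOf IsNull ≤ #({X : Set ℝ | MeasurableSet X ∧ volume X = 0} : Set (Set ℝ)) := by
    refine csInf_le' ⟨_, fun X hX => hX.2, fun Y hY => ?_, rfl⟩
    obtain ⟨N, h1, h2, h3⟩ := exists_measurable_superset_of_null (show volume Y = 0 from hY)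
    exact ⟨N, ⟨h2, h3⟩, h1⟩
  refine h.trans ((mk_le_mk_of_subset (t := {X : Set ℝ | MeasurableSet X}) fun X hX => hX.1).trans ?_)
  have := MeasurableSpace.cardinal_measurableSet_le_continuum (α := ℝ)
    (s := MeasurableSpace.countableGeneratingSet ℝ)
    (((MeasurableSpace.countable_countableGeneratingSet (α := ℝ)).le_aleph0).trans
      aleph0_le_continuum)
  rw [MeasurableSpace.generateFrom_countableGeneratingSet] at this
  exact this

theorem aleph_one_le_add : ℵ₁ ≤ addOf IsNull := by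
  refine le_csInf (nonempty_add (fun x => Real.volume_singleton) not_isNull_univ) ?_
  rintro c ⟨F, hF, hFu, rfl⟩
  by_contra hlt
  rw [not_le] at hlt
  have hc : #F ≤ ℵ₀ := by
    rw [← Order.lt_succ_iff, succ_aleph0]; exact hlt
  have hFc : F.Countable := Cardinal.le_aleph0_iff_set_countable.1 hc
  apply hFu
  show volume (⋃₀ F) = 0
  rw [measure_sUnion_null_iff hFc]
  exact fun X hX => hF X hX

theorem add_le_non : addOf IsUN ≤ nonOf IsUN := by
  obtain ⟨Y, hY, hYc⟩ := csInf_mem (s := {c | ∃ X : Set ℝ, ¬ IsUN X ∧ #X = c})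
    ⟨_, Set.univ, not_isUN_of not_isNull_univ, rfl⟩
  change #Y = nonOf IsUN at hYc
  rw [← hYc]
  have : addOf IsUN ≤ #((fun y : ℝ => ({y} : Set ℝ)) '' Y) := by
    refine csInf_le' ⟨_, ?_, ?_, rfl⟩
    · rintro X ⟨y, -, rfl⟩
      exact isUN_singleton y
    · have : ⋃₀ ((fun y : ℝ => ({y} : Set ℝ)) '' Y) = Y := by
        ext x; simp
      rw [this]; exact hY
  exact this.trans mk_image_le

theorem add_eq_of_continuum (hC : CodesStm) (hG : GrzStm) (h : 𝔠 ≤ (ℵ_ 2 : Cardinal.{0})) :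
    addOf IsUN = addOf IsNull := by
  by_contra hne
  have hlt : addOf IsNull < addOf IsUN := lt_of_le_of_ne (addle cdfStm).1 (Ne.symm hne)
  have h1 : ℵ₁ < nonOf IsUN := aleph_one_le_add.trans_lt (hlt.trans_le add_le_non)
  have h2 : ℵ_ 2 ≤ nonOf IsUN := by
    have e : Order.succ (ℵ_ (1 : Ordinal)) = (ℵ_ (2 : Ordinal) : Cardinal.{0}) := by
      rw [succ_aleph, one_add_one_eq_two]
    rw [← e]
    exact Order.succ_le_of_lt h1
  apply hne
  refine add_eq_of_non hC hG ?_
  rw [← (addle cdfStm).2]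
  exact cof_le_continuum.trans (h.trans h2)

end Pool.Agent.Y444.UN
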