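import Pool.Agent.Y444.UN.Core3

open MeasureTheory Set Filter Cardinal Topology
open scoped ENNReal

namespace Pool.Agent.Y444.UN

theorem UNull.mono {α : Type*} [MeasurableSpace α] {X Y : Set α} (h : UNull Y) (hXY : X ⊆ Y) :
    UNull X := fun μ h1 h2 => measure_mono_null hXY (h μ h1 h2)

theorem UNull.image_equiv {α β : Type*} [MeasurableSpace α] [MeasurableSpace β] (e : α ≃ᵐ β)
    {X : Set α} (h : UNull X) : UNull (e '' X) := by
  intro μ h1 h2
  have h3 : IsProbabilityMeasure (μ.map e.symm) :=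
    Measure.isProbabilityMeasure_map e.symm.measurable.aemeasurable
  have h4 : ∀ x, (μ.map e.symm) {x} = 0 := by
    intro x
    rw [e.symm.map_apply]
    have : e.symm ⁻¹' {x} = {e x} := by
      ext y; simp [e.symm_apply_eq]
    rw [this]; exact h2 _
  have h5 := h _ h3 h4
  rw [e.symm.map_apply] at h5
  have : e.symm ⁻¹' X = e '' X := by
    rw [e.image_eq_preimage_symm]
  rwa [this] at h5

theorem isUN_iff {X : Set ℝ} : IsUN X ↔ UNull X := Iff.rfl

theorem map_equiv_prob {α β : Type*} [MeasurableSpace α] [MeasurableSpace β] (e : α ≃ᵐ β)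
    (μ : Measure α) [IsProbabilityMeasure μ] : IsProbabilityMeasure (μ.map e) :=
  Measure.isProbabilityMeasure_map e.measurable.aemeasurable

theorem map_equiv_atomless {α β : Type*} [MeasurableSpace α] [MeasurableSpace β] (e : α ≃ᵐ β)
    (μ : Measure α) (h : ∀ x, μ {x} = 0) (y : β) : (μ.map e) {y} = 0 := by
  rw [e.map_apply]
  have : e ⁻¹' {y} = {e.symm y} := by
    ext x; simp [e.eq_symm_apply]
  rw [this]; exact h _

theorem not_countable_fun (ι : Type) [Infinite ι] : ¬ Countable (ι → Bool) := by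
  intro h
  have h1 : #(ι → Bool) ≤ ℵ₀ := Cardinal.mk_le_aleph0_iff.2 h
  have h2 : #(ι → Bool) = 2 ^ #ι := by
    rw [← Cardinal.power_def, Cardinal.mk_bool]
  rw [h2] at h1
  exact absurd ((Cardinal.cantor #ι).trans_le (h1.trans (Cardinal.aleph0_le_mk ι))) (lt_irrefl _)

/-- the decoding function -/
noncomputable def dec (f : ℕ → ℕ) (x : Om) : ℕ → Bool := by
  classical
  exact fun j => decide (∀ᶠ n in atTop, Spec f n x → x (n, f n, n + j) = true)

theorem measurable_dec (f : ℕ → ℕ) : Measurable (dec f) := by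
  classical
  rw [measurable_pi_iff]
  intro j
  have hset : MeasurableSet {x : Om | ∀ᶠ n in atTop, Spec f n x → x (n, f n, n + j) = true} := by
    have : {x : Om | ∀ᶠ n in atTop, Spec f n x → x (n, f n, n + j) = true} =
        ⋃ a : ℕ, ⋂ n : ℕ, ⋂ (_ : a ≤ n),
          ({x : Om | Spec f n x}ᶜ ∪ (fun x : Om => x (n, f n, n + j)) ⁻¹' {true}) := by
      ext x
      simp only [mem_setOf_eq, eventually_atTop, mem_iUnion, mem_iInter, mem_union, mem_compl_iff,
        mem_preimage, mem_singleton_iff]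
      constructor
      · rintro ⟨a, ha⟩
        exact ⟨a, fun n hn => by
          by_cases hs : Spec f n x
          · exact Or.inr (ha n hn hs)
          · exact Or.inl hs⟩
      · rintro ⟨a, ha⟩
        exact ⟨a, fun n hn hs => (ha n hn).resolve_left (fun h => h hs)⟩
    rw [this]
    refine MeasurableSet.iUnion fun a => MeasurableSet.iInter fun n => MeasurableSet.iInter fun _ => ?_
    refine (isClopen_Spec f n).isOpen.measurableSet.compl.union ?_
    exact (isClopen_discrete ({true} : Set Bool)).isOpen.preimage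
      (continuous_apply _) |>.measurableSet
  have : (fun x => dec f x j) = fun x =>
      decide (x ∈ {x : Om | ∀ᶠ n in atTop, Spec f n x → x (n, f n, n + j) = true}) := by
    funext x
    unfold dec
    simp
  rw [this]
  refine measurable_to_bool ?_
  have h2 : (fun x => decide (x ∈ {x : Om | ∀ᶠ n in atTop, Spec f n x →
      x (n, f n, n + j) = true})) ⁻¹' {true} =
      {x : Om | ∀ᶠ n in atTop, Spec f n x → x (n, f n, n + j) = true} := by
    ext x; simp
  rw [h2]; exact hset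

theorem dec_eq {f : ℕ → ℕ} {x : Om} {z : ℕ → Bool} (h : Dec f x z) : dec f x = z := by
  classical
  funext j
  unfold dec
  obtain ⟨h1, h2⟩ := h
  cases hz : z j with
  | true =>
    rw [decide_eq_true_iff]
    filter_upwards [h2, eventually_gt_atTop j] with n hn hj hs
    rw [hn hs j hj, hz]
  | false =>
    rw [decide_eq_false_iff_not]
    intro hev
    obtain ⟨n, hs, ⟨hn, hc⟩, hj⟩ :=
      (h1.and_eventually ((hev.and h2).and (eventually_gt_atTop j))).exists
    have e1 := hn hs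
    have e2 := hc hs j hj
    rw [hz] at e2
    rw [e1] at e2
    exact Bool.noConfusion e2

theorem main (hC : CodesStm) (hInj : InjStm) (hI : IndStm) (hCore : CoreStm) (hCof : CofStm) :
    MainStm := by
  classical
  intro Z hZ hcard
  have : IsProbabilityMeasure P := hI.1
  -- the null sets
  have hne : {c | ∃ F : Set (Set ℝ), (∀ X ∈ F, IsNull X) ∧ ¬ IsNull (⋃₀ F) ∧ #F = c}.Nonempty := by
    refine ⟨_, (range fun x : ℝ => ({x} : Set ℝ)), ?_, ?_, rfl⟩
    · rintro X ⟨x, rfl⟩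
      exact Real.volume_singleton
    · have : ⋃₀ (range fun x : ℝ => ({x} : Set ℝ)) = Set.univ := by
        ext x; simp
      rw [this]
      intro h
      unfold IsNull at h
      simp at h
  obtain ⟨F₀, hF₀, hF₀u, hF₀c⟩ := csInf_mem hne
  change #F₀ = addOf IsNull at hF₀c
  obtain ⟨G, hGm, hGe, hG⟩ := hC volume (fun n => (8 : ℝ≥0∞)⁻¹ ^ n)
    (fun n => pow_ne_zero _ (by simp))
  have hcode : ∀ N : F₀, ∃ f : ℕ → ℕ, (N : Set ℝ) ⊆ {y | ∃ᶠ n in atTop, y ∈ G n (f n)} :=
    fun N => hG N (hF₀ N N.2)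
  choose fc hfc using hcode
  obtain ⟨𝕂, h𝕂c, h𝕂, h𝕂cof⟩ := hCof
  obtain ⟨ι⟩ : Nonempty (𝕂 ↪ Z) := Cardinal.le_def _ _ |>.1 (h𝕂c.trans hcard)
  have hbo : ¬ Countable (ℕ → Bool) := not_countable_fun ℕ
  have hR : ¬ Countable ℝ := by
    rw [← not_uncountable_iff, not_not]; infer_instance
  have hOm : ¬ Countable Om := not_countable_fun Idx
  let c : (ℕ → Bool) ≃ᵐ ℝ := PolishSpace.measurableEquivOfNotCountable hbo hR
  let b : Om ≃ᵐ ℝ := PolishSpace.measurableEquivOfNotCountable hOm hR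
  let zz : 𝕂 → (ℕ → Bool) := fun K => c.symm (ι K : ℝ)
  have hzz : Function.Injective zz := by
    intro K K' h
    have h' : (ι K : ℝ) = (ι K' : ℝ) := c.symm.injective h
    exact ι.injective (Subtype.ext h')
  -- the core
  have hpick : ∀ K : 𝕂, ∃ N : F₀, ∃ x ∈ (K : Set Om), Dec (fc N) x (zz K) := by
    intro K
    by_contra hcon
    push Not at hcon
    obtain ⟨T, hTc, hT⟩ := hCore K (zz K) (h𝕂 K K.2).1 (h𝕂 K K.2).2
    apply hF₀u
    have hcap : ∀ N : F₀, ∃ j, ∀ᶠ n in atTop, fc N n ∈ T j n := by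
      intro N
      rcases hT (fc N) with h | ⟨x, hx, hd⟩
      · exact h
      · exact absurd hd (hcon N x hx)
    have hsub : ⋃₀ F₀ ⊆ ⋃ j, {y | ∃ᶠ n in atTop, y ∈ ⋃ i ∈ T j n, G n i} := by
      rintro y ⟨N, hN, hy⟩
      obtain ⟨j, hj⟩ := hcap ⟨N, hN⟩
      refine mem_iUnion.2 ⟨j, ?_⟩
      have := hfc ⟨N, hN⟩ hy
      refine (this.and_eventually hj).mono ?_
      rintro n ⟨h1, h2⟩
      exact mem_iUnion₂.2 ⟨_, h2, h1⟩
    refine measure_mono_null hsub (measure_iUnion_null fun j => ?_)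
    refine measure_setOf_frequently_eq_zero ?_
    have hb : ∀ n, volume (⋃ i ∈ T j n, G n i) ≤ (2 : ℝ≥0∞)⁻¹ ^ n := by
      intro n
      calc volume (⋃ i ∈ T j n, G n i) ≤ ∑ i ∈ T j n, volume (G n i) :=
            measure_biUnion_finset_le _ _
        _ ≤ ∑ i ∈ T j n, (8 : ℝ≥0∞)⁻¹ ^ n := Finset.sum_le_sum fun i _ => hGe n i
        _ = (T j n).card * (8 : ℝ≥0∞)⁻¹ ^ n := by simp
        _ ≤ (4 ^ n : ℕ) * (8 : ℝ≥0∞)⁻¹ ^ n := by
            gcongr
            exact_mod_cast hTc j n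
        _ = (2 : ℝ≥0∞)⁻¹ ^ n := by
            push_cast
            rw [← mul_pow]
            congr 1
            rw [← ENNReal.toReal_eq_toReal_iff' (by finiteness) (by finiteness),
              ENNReal.toReal_mul, ENNReal.toReal_inv, ENNReal.toReal_inv]
            norm_num
    refine ne_top_of_le_ne_top ?_ (ENNReal.tsum_le_tsum hb)
    rw [ENNReal.tsum_geometric]
    simp
  choose Nk xk hxk hdk using hpick
  let X : F₀ → Set Om := fun N => {x | ∃ K : 𝕂, Nk K = N ∧ xk K = x}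
  have hXun : ∀ N, UNull (X N) := by
    intro N
    refine hInj Om (ℕ → Bool) (dec (fc N)) (X N) (measurable_dec _) ?_ ?_
    · rintro x ⟨K, hK, rfl⟩ x' ⟨K', hK', rfl⟩ h
      have e1 : dec (fc N) (xk K) = zz K := by rw [← hK]; exact dec_eq (hdk K)
      have e2 : dec (fc N) (xk K') = zz K' := by rw [← hK']; exact dec_eq (hdk K')
      rw [e1, e2] at h
      rw [hzz h]
    · refine (UNull.image_equiv c.symm (isUN_iff.1 hZ)).mono ?_
      rintro w ⟨x, ⟨K, hK, rfl⟩, rfl⟩
      refine ⟨(ι K : ℝ), (ι K).2, ?_⟩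
      rw [← hK]
      exact (dec_eq (hdk K)).symm
  -- the family
  have hfam : addOf IsUN ≤ #(range fun N : F₀ => b '' (X N)) := by
    refine csInf_le' ⟨range fun N : F₀ => b '' (X N), ?_, ?_, rfl⟩
    · rintro Y ⟨N, rfl⟩
      exact (hXun N).image_equiv b
    · intro hun
      have h0 := hun (P.map b) (map_equiv_prob b P) (map_equiv_atomless b P hI.2.1)
      rw [b.map_apply] at h0
      obtain ⟨K, hK, hdis⟩ := h𝕂cof _ h0
      refine Set.disjoint_left.1 hdis (hxk ⟨K, hK⟩) ?_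
      refine ⟨b '' X (Nk ⟨K, hK⟩), ⟨Nk ⟨K, hK⟩, rfl⟩, ?_⟩
      exact ⟨xk ⟨K, hK⟩, ⟨⟨K, hK⟩, rfl, rfl⟩, rfl⟩
  exact hfam.trans (mk_range_le.trans hF₀c.le)

end Pool.Agent.Y444.UN
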