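import Pool.Agent.Y444.UN.AddLe

/-!
# The size of a nonnull set of `Om` (helper444)

The same statement as in `Pool/Agent/Y444/UN/Cof.lean`, with fewer imports.
-/

set_option autoImplicit false

open MeasureTheory Set Filter Cardinal Topology
open scoped ENNReal

namespace Pool.Agent.Y444.UN.No

theorem map_equiv_prob {α β : Type*} [MeasurableSpace α] [MeasurableSpace β] (e : α ≃ᵐ β)
    (μ : Measure α) [IsProbabilityMeasure μ] : IsProbabilityMeasure (μ.map e) :=
  Measure.isProbabilityMeasure_map e.measurable.aemeasurable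

theorem map_equiv_atomless {α β : Type*} [MeasurableSpace α] [MeasurableSpace β] (e : α ≃ᵐ β)
    (μ : Measure α) (h : ∀ x, μ {x} = 0) (y : β) : (μ.map e) {y} = 0 := by
  rw [e.map_apply]
  have : e ⁻¹' {y} = {e.symm y} := by
    ext x; simp [e.eq_symm_apply]
  rw [this]; exact h _

theorem not_countable_fun (ι : Type) [Infinite ι] : ¬ Countable (ι → Bool) := by
  intro h
  have h1 : #(ι → Bool) ≤ ℵ₀ := Cardinal.mk_le_aleph0_iff.2 h
  have h2 : #(ι → Bool) = 2 ^ #ι := by
    rw [← Cardinal.power_def, Cardinal.mk_bool]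
  rw [h2] at h1
  exact absurd ((Cardinal.cantor #ι).trans_le (h1.trans (Cardinal.aleph0_le_mk ι))) (lt_irrefl _)

/-- the measurable equivalence -/
noncomputable def eqv : Om ≃ᵐ ℝ :=
  PolishSpace.measurableEquivOfNotCountable (not_countable_fun Idx)
    (by rw [← not_uncountable_iff, not_not]; infer_instance)

theorem nonOm (hI : IndStm) (hC : CdfStm) : NonOmStm := by
  have : IsProbabilityMeasure P := hI.1
  obtain ⟨Φ, hΦ, hr, ha, hb⟩ := hC (P.map eqv) (map_equiv_prob eqv P)
    (map_equiv_atomless eqv P hI.2.1)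
  obtain ⟨Y, hY, hYc⟩ := csInf_mem (s := {c | ∃ X : Set ℝ, ¬ IsNull X ∧ #X = c})
    ⟨_, Set.univ, not_isNull_univ, rfl⟩
  change #Y = nonOf IsNull at hYc
  obtain ⟨n, hn⟩ := exists_unit hY
  -- translate into the open unit interval
  set Y' : Set ℝ := ((fun x : ℝ => x - n) '' (Y ∩ Icc (n : ℝ) (n + 1))) ∩ Ioo 0 1 with hY'
  have hY'0 : volume Y' ≠ 0 := by
    intro h0
    have h1 : volume (((fun x : ℝ => x - n) '' (Y ∩ Icc (n : ℝ) (n + 1)))) = 0 := by
      have h2 : ((fun x : ℝ => x - n) '' (Y ∩ Icc (n : ℝ) (n + 1))) ⊆ Y' ∪ {0, 1} := by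
        rintro _ ⟨x, ⟨hxY, hx⟩, rfl⟩
        by_cases h : x - n ∈ Ioo (0 : ℝ) 1
        · exact Or.inl ⟨⟨x, ⟨hxY, hx⟩, rfl⟩, h⟩
        · right
          simp only [mem_Ioo, not_and_or, not_lt, mem_insert_iff, mem_singleton_iff] at h ⊢
          rcases h with h | h
          · left; linarith [hx.1]
          · right; linarith [hx.2]
      refine measure_mono_null h2 (measure_union_null h0 ?_)
      exact (Set.toFinite ({0, 1} : Set ℝ)).measure_zero _
    apply hn
    have h3 : (fun x : ℝ => x - n) = (fun x : ℝ => x + (-n)) := by funext x; ring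
    rw [h3, image_add_right, neg_neg, measure_preimage_add_right] at h1
    exact h1
  have hsub : Y' ⊆ range Φ := fun y hy => hr hy.2
  have hch : ∀ y : Y', ∃ w : Om, Φ (eqv w) = y := by
    intro y
    obtain ⟨x, hx⟩ := hsub y.2
    exact ⟨eqv.symm x, by rw [eqv.apply_symm_apply, hx]⟩
  choose w hw using hch
  have hwi : Function.Injective w := by
    intro y y' h
    apply Subtype.ext
    rw [← hw y, ← hw y', h]
  have hE0 : P (range w) ≠ 0 := by
    intro h0
    have h2 : (P.map eqv) (eqv '' range w) = 0 := by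
      rw [eqv.map_apply, preimage_image_eq _ eqv.injective]; exact h0
    apply hY'0
    refine measure_mono_null ?_ (ha _ h2)
    intro y hy
    exact ⟨eqv (w ⟨y, hy⟩), mem_image_of_mem _ ⟨_, rfl⟩, hw ⟨y, hy⟩⟩
  refine ⟨range w, hE0, ?_⟩
  rw [mk_range_eq w hwi]
  apply le_antisymm
  · calc #Y' ≤ #((fun x : ℝ => x - n) '' (Y ∩ Icc (n : ℝ) (n + 1))) :=
          mk_le_mk_of_subset inter_subset_left
      _ ≤ #(Y ∩ Icc (n : ℝ) (n + 1) : Set ℝ) := mk_image_le
      _ ≤ #Y := mk_le_mk_of_subset inter_subset_left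
      _ = _ := hYc
  · exact csInf_le' ⟨Y', hY'0, rfl⟩

end Pool.Agent.Y444.UN.No
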